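import Mathlib
import Pool.Agent.TH861.GL3.Defs

/-! Satake parameters of generic cusp forms on `GL_4` and `GSp_4` over number fields; natural densities. -/

set_option autoImplicit false

namespace Pool.Agent.T2H30.DN

open NumberField IsDedekindDomain Pool.Agent.TH861.GL3

variable {K : Type*} [Field K] [NumberField K] {S : Finset (HeightOneSpectrum (𝓞 K))}

/-- An Euler product `L(s) = exp (∑_{v ∉ S} ∑_{k ≥ 1} c_{v,k} / k · (N v)^{-ks})`, given by its coefficients
`c (v, k - 1) = c_{v,k}` (the power sums of its local parameters), which converges absolutely for `Re s > 1` and has an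
analytic continuation to a neighbourhood of `Re s ≥ 1` without poles and zeros, except for a pole of order `m` at
`s = 1`. -/
structure EulerProduct (c : PL S × ℕ → ℝ) (m : ℕ) : Prop where
  /-- absolute convergence for `Re s > 1` -/
  summable : ∀ σ : ℝ, 1 < σ → Summable fun x : PL S × ℕ =>
    |c x| / ((x.2 : ℝ) + 1) * (((qq x.1.1 : ℕ) : ℝ) ^ (-σ)) ^ (x.2 + 1)
  /-- continuation; `G(s) = (s - 1)^m L(s)` -/
  continuation : ∃ G : ℂ → ℂ, (∀ s : ℂ, 1 ≤ s.re → AnalyticAt ℂ G s ∧ G s ≠ 0) ∧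
    ∀ s : ℂ, 1 < s.re → G s = (s - 1) ^ m *
      Complex.exp (∑' x : PL S × ℕ, ((c x / ((x.2 : ℝ) + 1) : ℝ) : ℂ) * (((qq x.1.1 : ℕ) : ℂ) ^ (-s)) ^ (x.2 + 1))

/-- The local component with the Satake parameters `a` is unitary (hermitian): the parameters are different from zero
and stable under `z ↦ 1 / conj z`. -/
def Unitary {n : ℕ} (a : Fin n → ℂ) : Prop :=
  (∀ i, a i ≠ 0) ∧ Multiset.map (fun i => ((starRingEnd ℂ) (a i))⁻¹) Finset.univ.val =
    Multiset.map a Finset.univ.val

/-- The set of the places `v ∉ S` with `P v` has upper natural density at most `δ`, in every interval `(X, (1 + η) X]`.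
(By the prime ideal theorem the number of all places with `X < N v ≤ (1 + η) X` is asymptotic to `η X / log X`.) -/
def UpperDensityLE (P : PL S → Prop) (δ : ℝ) : Prop :=
  ∀ η : ℝ, 0 < η → ∀ ε : ℝ, 0 < ε → ∃ X₀ : ℝ, ∀ X : ℝ, X₀ ≤ X →
    (({v : PL S | X < (qq v.1 : ℝ) ∧ (qq v.1 : ℝ) ≤ (1 + η) * X ∧ P v}.ncard : ℕ) : ℝ) ≤
      (δ + ε) * (η * X / Real.log X)

/-- The set of the places `v ∉ S` with `P v` has lower natural density at least `δ`, in every interval
`(X, (1 + η) X]`. -/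
def LowerDensityGE (P : PL S → Prop) (δ : ℝ) : Prop :=
  ∀ η : ℝ, 0 < η → ∀ ε : ℝ, 0 < ε → ∃ X₀ : ℝ, ∀ X : ℝ, X₀ ≤ X →
    (δ - ε) * (η * X / Real.log X) ≤
      (({v : PL S | X < (qq v.1 : ℝ) ∧ (qq v.1 : ℝ) ≤ (1 + η) * X ∧ P v}.ncard : ℕ) : ℝ)

/-- Properties of the Satake parameters `α v`, `v ∉ S`, of a unitary cuspidal automorphic representation `Π` of `GL_4`
over the number field `K`; `m` is the order of the pole of `L(s, ∧²Π × (∧²Π)~)` at `s = 1`. -/
structure CuspidalGL4 (α : PL S → Fin 4 → ℂ) (m : ℕ) : Prop where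
  /-- `m` is the order of a pole: `m = ∑ n_i²` if `∧²Π` is the isobaric sum of the `n_i τ_i`, `τ_i` cuspidal -/
  one_le : 1 ≤ m
  /-- the local components are unitary -/
  unitary : ∀ v, Unitary (α v)
  /-- the Rankin-Selberg `L`-function `L^S(s, Π × Π~)` -/
  standard : EulerProduct (fun x : PL S × ℕ => ‖∑ i, α x.1 i ^ (x.2 + 1)‖ ^ 2) 1
  /-- the Rankin-Selberg `L`-function `L^S(s, ∧²Π × (∧²Π)~)` -/
  exterior : EulerProduct (fun x : PL S × ℕ =>
    ‖∑ i, ∑ j with i < j, (α x.1 i * α x.1 j) ^ (x.2 + 1)‖ ^ 2) m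

/-- The four Satake parameters `z_1, z_2, w / z_1, w / z_2`, the eigenvalues of an element of `GSp_4(ℂ)` of
similitude `w`. -/
noncomputable def spin (z : Fin 2 → ℂ) (w : ℂ) : Fin 4 → ℂ := ![z 0, z 1, w / z 0, w / z 1]

/-- The eigenvalues in the five-dimensional representation `GSp_4(ℂ) → SO_5(ℂ)`. -/
noncomputable def five (z : Fin 2 → ℂ) (w : ℂ) : Fin 5 → ℂ :=
  ![1, z 0 * z 1 / w, z 0 / z 1, z 1 / z 0, w / (z 0 * z 1)]

/-- Properties of the Satake parameters `spin (z v) (w v)`, `v ∉ S`, of a unitary globally generic cuspidal automorphic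
representation `Π` of `GSp_4` over the number field `K` with central character `w`, such that the lift `Π_4` to `GL_4`
is cuspidal. `Π_5` is the lift to `GL_5` given by the representation `GSp_4(ℂ) → SO_5(ℂ)`, i.e.
`∧²Π_4 = w ⊞ (Π_5 ⊗ w)`; it is an isobaric sum of cuspidal representations, and `m` is the order of the pole of
`L(s, Π_5 × Π_5)` at `s = 1` (`m = 1` iff `Π_5` is cuspidal). -/
structure GenericGSp4 (z : PL S → Fin 2 → ℂ) (w : PL S → ℂ) (m : ℕ) : Prop where
  one_le : 1 ≤ m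
  /-- the central character is unitary -/
  central : ∀ v, ‖w v‖ = 1
  /-- the local components are unitary -/
  unitary : ∀ v, Unitary (spin (z v) (w v))
  /-- the Rankin-Selberg `L`-function `L^S(s, Π_4 × Π_4~)` -/
  standard : EulerProduct (fun x : PL S × ℕ => ‖∑ i, spin (z x.1) (w x.1) i ^ (x.2 + 1)‖ ^ 2) 1
  /-- the `L`-function `L^S(s, Π_5)` (its coefficients are real); it has no pole at `s = 1` -/
  degree_five : EulerProduct (fun x : PL S × ℕ => (∑ i, five (z x.1) (w x.1) i ^ (x.2 + 1)).re) 0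
  /-- the Rankin-Selberg `L`-function `L^S(s, Π_5 × Π_5)` -/
  five_five : EulerProduct (fun x : PL S × ℕ => ‖∑ i, five (z x.1) (w x.1) i ^ (x.2 + 1)‖ ^ 2) m

end Pool.Agent.T2H30.DN
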