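import Mathlib
import Pool.Agent.T2H30.DN.Defs

/-! Local inequalities for unitary Satake parameters of `GL_4`. -/

set_option autoImplicit false

namespace Pool.Agent.T2H30.DN

theorem map_perm {n : ℕ} (f : Fin n → ℂ) (σ : Equiv.Perm (Fin n)) :
    Multiset.map (fun i => f (σ i)) Finset.univ.val = Multiset.map f Finset.univ.val := by
  have h : Multiset.map σ Finset.univ.val = (Finset.univ : Finset (Fin n)).val := by
    have := congrArg Finset.val (Finset.map_univ_equiv σ)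
    simpa using this
  conv_rhs => rw [← h, Multiset.map_map]
  rfl

theorem Unitary.perm {n : ℕ} {a : Fin n → ℂ} (h : Unitary a) (σ : Equiv.Perm (Fin n)) : Unitary fun i => a (σ i) := by
  refine ⟨fun i => h.1 _, ?_⟩
  rw [map_perm a σ, ← h.2]
  exact map_perm (fun i => ((starRingEnd ℂ) (a i))⁻¹) σ

theorem Unitary.partner {n : ℕ} {a : Fin n → ℂ} (h : Unitary a) {i : Fin n} (hi : ‖a i‖ ≠ 1) :
    ∃ j, j ≠ i ∧ a j = ((starRingEnd ℂ) (a i))⁻¹ := by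
  have h1 : ((starRingEnd ℂ) (a i))⁻¹ ∈ Multiset.map a Finset.univ.val := by
    rw [← h.2]
    exact Multiset.mem_map.2 ⟨i, Finset.mem_univ_val _, rfl⟩
  obtain ⟨j, _, hj⟩ := Multiset.mem_map.1 h1
  refine ⟨j, ?_, hj⟩
  rintro rfl
  have h3 := congrArg norm hj
  rw [norm_inv, RCLike.norm_conj] at h3
  have hi0 : 0 < ‖a j‖ := norm_pos_iff.2 (h.1 j)
  apply hi
  have h4 : ‖a j‖ * ‖a j‖ = 1 := by
    nth_rewrite 1 [h3]
    exact inv_mul_cancel₀ hi0.ne'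
  nlinarith

theorem exists_perm : ∀ i j : Fin 4, j ≠ i → ∃ σ : Equiv.Perm (Fin 4), σ 0 = i ∧ σ 1 = j := by decide

theorem Unitary.four {a : Fin 4 → ℂ} (h : Unitary a) {i : Fin 4} (hi : ‖a i‖ ≠ 1) :
    ∃ σ : Equiv.Perm (Fin 4), σ 0 = i ∧ a (σ 1) = ((starRingEnd ℂ) (a (σ 0)))⁻¹ ∧
      ({((starRingEnd ℂ) (a (σ 2)))⁻¹, ((starRingEnd ℂ) (a (σ 3)))⁻¹} : Multiset ℂ) = {a (σ 2), a (σ 3)} := by
  obtain ⟨j, hji, hj⟩ := h.partner hi
  obtain ⟨σ, h0, h1⟩ := exists_perm i j hji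
  have h2 : a (σ 1) = ((starRingEnd ℂ) (a (σ 0)))⁻¹ := by rw [h0, h1, hj]
  refine ⟨σ, h0, h2, ?_⟩
  have h3 := (h.perm σ).2
  have h4 : ∀ f : Fin 4 → ℂ, Multiset.map f Finset.univ.val = {f 0, f 1} + {f 2, f 3} := by
    intro f
    rfl
  rw [h4, h4] at h3
  have h5 : ((starRingEnd ℂ) (a (σ 1)))⁻¹ = a (σ 0) := by
    rw [h2, map_inv₀, inv_inv, Complex.conj_conj]
  rw [h5, ← h2, Multiset.pair_comm] at h3
  exact add_left_cancel h3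

theorem e2_eq (a : Fin 4 → ℂ) : ∑ i, ∑ j with i < j, a i * a j =
    a 0 * a 1 + a 0 * a 2 + a 0 * a 3 + a 1 * a 2 + a 1 * a 3 + a 2 * a 3 := by
  simp_rw [Finset.sum_filter, Fin.sum_univ_four]
  simp
  ring

theorem e2_perm (a : Fin 4 → ℂ) (σ : Equiv.Perm (Fin 4)) : ∑ i, ∑ j with i < j, a i * a j =
    a (σ 0) * a (σ 1) + a (σ 0) * a (σ 2) + a (σ 0) * a (σ 3) + a (σ 1) * a (σ 2) + a (σ 1) * a (σ 3) +
      a (σ 2) * a (σ 3) := by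
  have h1 := Equiv.sum_comp σ a
  have h2 := Equiv.sum_comp σ fun i => a i ^ 2
  rw [Fin.sum_univ_four, Fin.sum_univ_four] at h1 h2
  rw [e2_eq]
  linear_combination (-(1 : ℂ) / 2) * (a (σ 0) + a (σ 1) + a (σ 2) + a (σ 3) + a 0 + a 1 + a 2 + a 3) * h1 + (1 / 2) * h2

theorem e1_perm (a : Fin 4 → ℂ) (σ : Equiv.Perm (Fin 4)) : ∑ i, a i = a (σ 0) + a (σ 1) + a (σ 2) + a (σ 3) := by
  rw [← Equiv.sum_comp σ a, Fin.sum_univ_four]

/-- `A = r u`, `1 / conj A = u / r` -/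
theorem polar {A : ℂ} (hA : A ≠ 0) : ∃ u : ℂ, ‖u‖ = 1 ∧ A + ((starRingEnd ℂ) A)⁻¹ = ((‖A‖ + ‖A‖⁻¹ : ℝ) : ℂ) * u ∧
    A * ((starRingEnd ℂ) A)⁻¹ = u ^ 2 := by
  have h0 : (‖A‖ : ℂ) ≠ 0 := by exact_mod_cast (norm_pos_iff.2 hA).ne'
  have hc : (starRingEnd ℂ) A ≠ 0 := (map_ne_zero _).2 hA
  have h1 : A * (starRingEnd ℂ) A = (‖A‖ : ℂ) ^ 2 := by
    rw [Complex.mul_conj, Complex.normSq_eq_norm_sq]
    push_cast
    rfl
  have h2 : ((starRingEnd ℂ) A)⁻¹ = A / (‖A‖ : ℂ) ^ 2 := by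
    rw [← h1]
    field_simp
  refine ⟨A / ‖A‖, ?_, ?_, ?_⟩
  · rw [norm_div, Complex.norm_real, norm_norm, div_self]
    exact (norm_pos_iff.2 hA).ne'
  · rw [h2]
    push_cast
    field_simp
  · rw [h2]
    field_simp

theorem two_le_add_inv {r : ℝ} (hr : 0 < r) : 2 ≤ r + r⁻¹ := by
  have h1 : r * r⁻¹ = 1 := mul_inv_cancel₀ hr.ne'
  have h2 : 0 < r⁻¹ := inv_pos.2 hr
  nlinarith [sq_nonneg (r - r⁻¹)]

theorem two_lt_add_inv {r : ℝ} (hr : 0 < r) (h1 : r ≠ 1) : 2 < r + r⁻¹ := by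
  have h3 : r + r⁻¹ - 2 = (r - 1) ^ 2 / r := by
    field_simp
    ring
  have h4 : 0 < (r - 1) ^ 2 := by
    have : r - 1 ≠ 0 := sub_ne_zero.2 h1
    positivity
  have h5 : 0 < (r - 1) ^ 2 / r := by positivity
  linarith

theorem add_inv_mono {r s : ℝ} (hr : 1 ≤ r) (hrs : r ≤ s) : r + r⁻¹ ≤ s + s⁻¹ := by
  have h0 : 0 < r := by linarith
  have h1 : 0 < s := by linarith
  have h2 : s + s⁻¹ - (r + r⁻¹) = (s - r) * (r * s - 1) / (r * s) := by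
    field_simp
    ring
  have h3 : 0 ≤ (s - r) * (r * s - 1) / (r * s) := by
    have : 0 ≤ s - r := by linarith
    have : 0 ≤ r * s - 1 := by nlinarith
    positivity
  linarith

/-- the main inequality -/
theorem main_ineq {a : Fin 4 → ℂ} (h : Unitary a) {i : Fin 4} (hi : ‖a i‖ ≠ 1) :
    (‖a i‖ + ‖a i‖⁻¹) ^ 2 - 2 ≤ (‖a i‖ + ‖a i‖⁻¹) * ‖∑ j, a j‖ + ‖∑ i, ∑ j with i < j, a i * a j‖ := by
  obtain ⟨σ, h0, h1, h2⟩ := h.four hi
  have hi0 : 0 < ‖a i‖ := norm_pos_iff.2 (h.1 i)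
  obtain ⟨u, hu, hu1, hu2⟩ := polar (h.1 i)
  rw [h0] at h1
  rw [← h1] at hu1 hu2
  set x : ℝ := ‖a i‖ + ‖a i‖⁻¹ with hx
  have hx2 : 2 ≤ x := two_le_add_inv hi0
  -- the norm of the product of the others
  have h3 : ‖a (σ 2) * a (σ 3)‖ = 1 := by
    have h4 := congrArg Multiset.prod h2
    simp only [Multiset.insert_eq_cons, Multiset.prod_cons, Multiset.prod_singleton] at h4
    have h5 := congrArg norm h4
    rw [norm_mul, norm_inv, norm_inv, RCLike.norm_conj, RCLike.norm_conj, ← mul_inv, ← norm_mul] at h5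
    have h6 : 0 < ‖a (σ 2) * a (σ 3)‖ := norm_pos_iff.2 (mul_ne_zero (h.1 _) (h.1 _))
    have h7 : ‖a (σ 2) * a (σ 3)‖ * ‖a (σ 2) * a (σ 3)‖ = 1 := by
      nth_rewrite 1 [← h5]
      exact inv_mul_cancel₀ h6.ne'
    nlinarith
  rw [e1_perm a σ, e2_perm a σ, h0]
  have h4 : (x : ℂ) * u * (a i + a (σ 1) + a (σ 2) + a (σ 3)) - (a i * a (σ 1) + a i * a (σ 2) + a i * a (σ 3) +
      a (σ 1) * a (σ 2) + a (σ 1) * a (σ 3) + a (σ 2) * a (σ 3)) = u ^ 2 * ((x ^ 2 - 1 : ℝ) : ℂ) - a (σ 2) * a (σ 3) := by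
    push_cast
    linear_combination ((x : ℂ) * u) * hu1 - hu2 - (a (σ 2) + a (σ 3)) * hu1
  have h5 : ‖u ^ 2 * ((x ^ 2 - 1 : ℝ) : ℂ)‖ = x ^ 2 - 1 := by
    rw [norm_mul, norm_pow, hu, one_pow, one_mul, Complex.norm_real, Real.norm_of_nonneg]
    nlinarith
  have h6 := norm_sub_norm_le (u ^ 2 * ((x ^ 2 - 1 : ℝ) : ℂ)) (a (σ 2) * a (σ 3))
  rw [h5, h3, ← h4] at h6
  have h7 := norm_sub_le ((x : ℂ) * u * (a i + a (σ 1) + a (σ 2) + a (σ 3))) (a i * a (σ 1) + a i * a (σ 2) +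
    a i * a (σ 3) + a (σ 1) * a (σ 2) + a (σ 1) * a (σ 3) + a (σ 2) * a (σ 3))
  rw [norm_mul, norm_mul, hu, mul_one, Complex.norm_real, Real.norm_of_nonneg (by linarith)] at h7
  linarith

/-- no parameter of absolute value one -/
theorem no_unimodular' {a : Fin 4 → ℂ} (h : Unitary a) (hn : ∀ i, ‖a i‖ ≠ 1) {X : ℝ} (hX2 : 2 ≤ X)
    (hX : ∀ i, X ≤ ‖a i‖ + ‖a i‖⁻¹) : X ^ 2 - 2 ≤ ‖∑ i, ∑ j with i < j, a i * a j‖ := by
  obtain ⟨σ, h0, h1, h2⟩ := h.four (hn 0)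
  obtain ⟨u, hu, hu1, hu2⟩ := polar (h.1 (σ 0))
  rw [← h1] at hu1 hu2
  have h3 : ((starRingEnd ℂ) (a (σ 2)))⁻¹ = a (σ 3) := by
    have h4 : ((starRingEnd ℂ) (a (σ 2)))⁻¹ ∈ ({a (σ 2), a (σ 3)} : Multiset ℂ) := by
      rw [← h2]
      simp
    simp only [Multiset.insert_eq_cons, Multiset.mem_cons, Multiset.mem_singleton] at h4
    rcases h4 with h4 | h4
    · exfalso
      have h5 := congrArg norm h4
      rw [norm_inv, RCLike.norm_conj] at h5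
      have h6 : 0 < ‖a (σ 2)‖ := norm_pos_iff.2 (h.1 _)
      apply hn (σ 2)
      have h7 : ‖a (σ 2)‖ * ‖a (σ 2)‖ = 1 := by
        nth_rewrite 1 [← h5]
        exact inv_mul_cancel₀ h6.ne'
      nlinarith
    · exact h4
  obtain ⟨w, hw, hw1, hw2⟩ := polar (h.1 (σ 2))
  rw [h3] at hw1 hw2
  have hx := hX (σ 0)
  have hy := hX (σ 2)
  set x : ℝ := ‖a (σ 0)‖ + ‖a (σ 0)‖⁻¹
  set y : ℝ := ‖a (σ 2)‖ + ‖a (σ 2)‖⁻¹
  rw [e2_perm a σ]
  have h4 : a (σ 0) * a (σ 1) + a (σ 0) * a (σ 2) + a (σ 0) * a (σ 3) + a (σ 1) * a (σ 2) + a (σ 1) * a (σ 3) +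
      a (σ 2) * a (σ 3) = ((x * y : ℝ) : ℂ) * (u * w) - (-(u ^ 2) - w ^ 2) := by
    push_cast
    linear_combination hu2 + hw2 + (a (σ 2) + a (σ 3)) * hu1 + (x : ℂ) * u * hw1
  have h5 : ‖((x * y : ℝ) : ℂ) * (u * w)‖ = x * y := by
    rw [norm_mul, norm_mul, hu, hw, mul_one, mul_one, Complex.norm_real, Real.norm_of_nonneg (by nlinarith)]
  have h6 : ‖-(u ^ 2) - w ^ 2‖ ≤ 2 := by
    refine (norm_sub_le _ _).trans ?_
    rw [norm_neg, norm_pow, norm_pow, hu, hw]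
    norm_num
  have h7 := norm_sub_norm_le (((x * y : ℝ) : ℂ) * (u * w)) (-(u ^ 2) - w ^ 2)
  rw [h4]
  rw [h5] at h7
  have h8 : X ^ 2 ≤ x * y := by nlinarith
  linarith

theorem no_unimodular {a : Fin 4 → ℂ} (h : Unitary a) {R : ℝ} (hR : 1 ≤ R)
    (hn : ∀ i, ‖a i‖ ≠ 1 ∧ (R ≤ ‖a i‖ ∨ ‖a i‖ ≤ R⁻¹)) :
    (R ^ 2 + (R ^ 2)⁻¹) ^ 2 ≤ ‖∑ i, ∑ j with i < j, a i * a j‖ ^ 2 := by
  have hR0 : 0 < R := by linarith
  have h1 := no_unimodular' h (fun i => (hn i).1) (two_le_add_inv hR0) (fun i => by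
    rcases (hn i).2 with h1 | h1
    · exact add_inv_mono hR h1
    · have h2 : 0 < ‖a i‖ := norm_pos_iff.2 (h.1 i)
      have h3 : R ≤ ‖a i‖⁻¹ := by
        rw [← inv_inv R]
        exact inv_anti₀ h2 h1
      have h4 := add_inv_mono hR h3
      rw [inv_inv] at h4
      linarith)
  have e1 : (R + R⁻¹) ^ 2 - 2 = R ^ 2 + (R ^ 2)⁻¹ := by
    field_simp
    ring
  rw [e1] at h1
  exact pow_le_pow_left₀ (by positivity) h1 2

/-- the number of parameters of absolute value one is not one -/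
theorem two_unimodular {a : Fin 4 → ℂ} (h : Unitary a) (hn : ¬ ∀ i, ‖a i‖ ≠ 1) :
    ∃ i j, i ≠ j ∧ ‖a i‖ = 1 ∧ ‖a j‖ = 1 := by
  push Not at hn
  obtain ⟨i, hi⟩ := hn
  by_cases h1 : ∀ i, ‖a i‖ = 1
  · exact ⟨0, 1, by decide, h1 0, h1 1⟩
  push Not at h1
  obtain ⟨k, hk⟩ := h1
  obtain ⟨σ, h0, h1, h2⟩ := h.four hk
  have h4 := congrArg Multiset.prod h2
  simp only [Multiset.insert_eq_cons, Multiset.prod_cons, Multiset.prod_singleton] at h4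
  have h5 := congrArg norm h4
  rw [norm_mul, norm_inv, norm_inv, RCLike.norm_conj, RCLike.norm_conj, norm_mul] at h5
  have h6 : 0 < ‖a (σ 2)‖ := norm_pos_iff.2 (h.1 _)
  have h7 : 0 < ‖a (σ 3)‖ := norm_pos_iff.2 (h.1 _)
  have h8 : ‖a (σ 2)‖ * ‖a (σ 3)‖ = 1 := by
    have h9 : (‖a (σ 2)‖ * ‖a (σ 3)‖) * (‖a (σ 2)‖ * ‖a (σ 3)‖) = 1 := by
      nth_rewrite 1 [← h5]
      field_simp
    have h10 : 0 < ‖a (σ 2)‖ * ‖a (σ 3)‖ := by positivity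
    nlinarith
  have h9 : ∃ j, σ j = i := ⟨σ.symm i, σ.apply_symm_apply i⟩
  obtain ⟨j, hj⟩ := h9
  have hne : σ 2 ≠ σ 3 := fun h => absurd (σ.injective h) (by decide)
  have h10 : ‖a (σ 2)‖ = 1 ∨ ‖a (σ 3)‖ = 1 := by
    fin_cases j
    · exfalso
      apply hk
      rw [← h0]
      exact hj ▸ hi
    · exfalso
      apply hk
      have h11 := congrArg norm h1
      rw [norm_inv, RCLike.norm_conj] at h11
      have h12 : ‖a (σ 1)‖ = 1 := hj ▸ hi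
      rw [h12, h0] at h11
      have := inv_eq_one.1 h11.symm
      exact this
    · left
      exact hj ▸ hi
    · right
      exact hj ▸ hi
  rcases h10 with h10 | h10
  · rw [h10, one_mul] at h8
    exact ⟨_, _, hne, h10, h8⟩
  · rw [h10, mul_one] at h8
    exact ⟨_, _, hne, h8, h10⟩

theorem mono_quot {l p q : ℝ} (hl : 0 < l) (hq : 2 ≤ q) (hqp : q ≤ p) :
    l * (q - 2) ^ 2 / (q + l) ≤ l * (p - 2) ^ 2 / (p + l) := by
  rw [div_le_div_iff₀ (by linarith) (by linarith)]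
  have h1 : (q - 2) ^ 2 * (p + l) ≤ (p - 2) ^ 2 * (q + l) := by
    have e : (p - 2) ^ 2 * (q + l) - (q - 2) ^ 2 * (p + l) =
        (p - q) * ((p - 2) * (q - 2) + (2 + l) * (p - 2 + (q - 2))) := by ring
    have h2 : 0 ≤ (p - q) * ((p - 2) * (q - 2) + (2 + l) * (p - 2 + (q - 2))) := by
      have h3 : 0 ≤ p - q := by linarith
      have h4 : 0 ≤ p - 2 := by linarith
      have h5 : 0 ≤ q - 2 := by linarith
      positivity
    linarith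
  nlinarith

theorem quad_low {a : Fin 4 → ℂ} (h : Unitary a) {R l : ℝ} (hR : 1 < R) (hl : 0 < l) {i : Fin 4} (hi : R ≤ ‖a i‖) :
    l * ((R + R⁻¹) ^ 2 - 2) ^ 2 / ((R + R⁻¹) ^ 2 + l) ≤
      l * ‖∑ j, a j‖ ^ 2 + ‖∑ i, ∑ j with i < j, a i * a j‖ ^ 2 := by
  have h1 := main_ineq h (i := i) (by intro h; linarith)
  have hx := add_inv_mono hR.le hi
  have hx0 := two_le_add_inv (by linarith : 0 < R)
  set x : ℝ := ‖a i‖ + ‖a i‖⁻¹
  set y : ℝ := R + R⁻¹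
  set A := ‖∑ j, a j‖
  set B := ‖∑ i, ∑ j with i < j, a i * a j‖
  have h2 : y ^ 2 ≤ x ^ 2 := by nlinarith
  refine (mono_quot hl (by nlinarith) h2).trans ?_
  rw [div_le_iff₀ (by positivity)]
  have hA : 0 ≤ A := norm_nonneg _
  have hB : 0 ≤ B := norm_nonneg _
  have h3 : (x ^ 2 - 2) ^ 2 ≤ (x * A + B) ^ 2 := by
    refine pow_le_pow_left₀ (by nlinarith) h1 2
  have h4 : l * (x * A + B) ^ 2 ≤ (l * A ^ 2 + B ^ 2) * (x ^ 2 + l) := by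
    nlinarith [sq_nonneg (l * A - x * B)]
  calc l * (x ^ 2 - 2) ^ 2 ≤ l * (x * A + B) ^ 2 := mul_le_mul_of_nonneg_left h3 hl.le
    _ ≤ _ := h4

end Pool.Agent.T2H30.DN
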