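import Mathlib
import Pool.Agent.Helper923.PNT

/-! The Wiener-Ikehara theorem for nonnegative coefficients, without an a priori bound. -/

set_option autoImplicit false

open MeasureTheory Filter Topology Set Complex
open Pool.Agent.Helper923.PNT (K K_nonneg K_le_one K_le K_integrable K_integral_pos fejer_complex fubini_step ff)

namespace Pool.Agent.T2H30.DN

theorem K_lower {v : ℝ} (hv : |v| ≤ 1) : 2 / 5 ≤ K v := by
  unfold K
  split_ifs with h
  · norm_num
  · have h2 : 0 < v ^ 2 := by positivity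
    rw [le_div_iff₀ h2]
    have hpi := Real.pi_gt_three
    have hpi' := Real.pi_lt_d2
    have h3 := Real.cos_le_one_sub_mul_cos_sq (x := v) (by linarith)
    have h4 : 2 / Real.pi ^ 2 ≥ 1 / 5 := by
      rw [ge_iff_le, div_le_div_iff₀ (by norm_num) (by positivity)]
      nlinarith
    nlinarith

theorem pole_part (A σ Y : ℝ) (hσ : 0 < σ) :
    ∫ y in (-1 : ℝ)..1, ((1 - |y| / 1 : ℝ) : ℂ) * Complex.exp (Complex.I * ((Y * y : ℝ) : ℂ)) *
      (A / ((σ : ℂ) + Complex.I * y)) = ((A * ∫ u in Ioi (0 : ℝ), Real.exp (-σ * u) * K (Y - u) : ℝ) : ℂ) := by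
  have h1 := fubini_step (S := fun _ => (0 : ℝ)) (A := A) (C := 0) monotone_const (fun _ => le_rfl)
    (fun x hx => by simp) 1 σ Y one_pos hσ
  have h2 : ∀ y : ℝ, ∫ u in Ioi (0 : ℝ), ((ff (fun _ => (0 : ℝ)) u - A : ℝ) : ℂ) *
      Complex.exp (-((σ : ℂ) + Complex.I * y) * u) = -(A / ((σ : ℂ) + Complex.I * y)) := by
    intro y
    have e1 : ∀ u : ℝ, ((ff (fun _ => (0 : ℝ)) u - A : ℝ) : ℂ) *
      Complex.exp (-((σ : ℂ) + Complex.I * y) * u) = -(A : ℂ) * Complex.exp (-((σ : ℂ) + Complex.I * y) * u) := by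
      intro u
      unfold ff
      push_cast
      ring
    simp_rw [e1]
    rw [integral_const_mul, integral_exp_mul_complex_Ioi (by simpa using hσ)]
    simp only [ofReal_zero, mul_zero, Complex.exp_zero]
    have h3 : ((σ : ℂ) + Complex.I * y) ≠ 0 := by
      intro h
      have := congrArg Complex.re h
      simp at this
      exact hσ.ne' this
    field_simp
  simp_rw [h2] at h1
  have h3 : ∀ y : ℝ, ((1 - |y| / 1 : ℝ) : ℂ) * Complex.exp (Complex.I * ((Y * y : ℝ) : ℂ)) *
      (-(A / ((σ : ℂ) + Complex.I * y))) = -(((1 - |y| / 1 : ℝ) : ℂ) * Complex.exp (Complex.I * ((Y * y : ℝ) : ℂ)) *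
      (A / ((σ : ℂ) + Complex.I * y))) := fun y => by ring
  simp_rw [h3] at h1
  rw [intervalIntegral.integral_neg, neg_eq_iff_eq_neg] at h1
  rw [h1, ← ofReal_neg]
  congr 1
  rw [← integral_neg, ← integral_const_mul]
  refine integral_congr_ae (Eventually.of_forall fun u => ?_)
  unfold ff
  simp only [zero_mul, one_mul]
  ring

theorem pole_bound (A σ Y : ℝ) (hσ : 0 < σ) :
    A * ∫ u in Ioi (0 : ℝ), Real.exp (-σ * u) * K (Y - u) ≤ |A| * ∫ u, K u := by
  have hK : Integrable fun u => K (Y - u) := K_integrable.comp_sub_left Y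
  have h0 : 0 ≤ ∫ u in Ioi (0 : ℝ), Real.exp (-σ * u) * K (Y - u) :=
    integral_nonneg fun u => mul_nonneg (Real.exp_pos _).le (K_nonneg _)
  have h1 : ∫ u in Ioi (0 : ℝ), Real.exp (-σ * u) * K (Y - u) ≤ ∫ u, K u := by
    calc ∫ u in Ioi (0 : ℝ), Real.exp (-σ * u) * K (Y - u) ≤ ∫ u in Ioi (0 : ℝ), K (Y - u) := by
          refine setIntegral_mono_on ?_ hK.integrableOn measurableSet_Ioi fun u hu => ?_
          · refine Integrable.mono' hK.integrableOn ?_ ?_
            · refine AEStronglyMeasurable.mul (by fun_prop) hK.integrableOn.aestronglyMeasurable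
            · refine (ae_restrict_iff' measurableSet_Ioi).2 (Eventually.of_forall fun u hu => ?_)
              rw [Real.norm_of_nonneg (mul_nonneg (Real.exp_pos _).le (K_nonneg _))]
              have : Real.exp (-σ * u) ≤ 1 := Real.exp_le_one_iff.2 (by have : (0 : ℝ) < u := hu; nlinarith)
              exact mul_le_of_le_one_left (K_nonneg _) this
          · have : Real.exp (-σ * u) ≤ 1 := Real.exp_le_one_iff.2 (by have : (0 : ℝ) < u := hu; nlinarith)
            exact mul_le_of_le_one_left (K_nonneg _) this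
      _ ≤ ∫ u, K (Y - u) := setIntegral_le_integral hK (Eventually.of_forall fun u => K_nonneg _)
      _ = ∫ u, K u := integral_sub_left_eq_self K volume Y
  calc A * ∫ u in Ioi (0 : ℝ), Real.exp (-σ * u) * K (Y - u) ≤ |A| * ∫ u in Ioi (0 : ℝ), Real.exp (-σ * u) * K (Y - u) :=
        mul_le_mul_of_nonneg_right (le_abs_self A) h0
    _ ≤ _ := mul_le_mul_of_nonneg_left h1 (abs_nonneg A)

/-- the smoothed sums are bounded -/
theorem smooth_bound (f : ℕ → ℝ) (hf : ∀ n, 0 ≤ f n) (A : ℝ)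
    (hs : ∀ σ : ℝ, 1 < σ → LSeriesSummable (fun n => (f n : ℂ)) σ)
    (F : ℂ → ℂ) (hF : ContinuousOn F {s | 1 ≤ s.re})
    (hFE : ∀ s : ℂ, 1 < s.re → F s = LSeries (fun n => (f n : ℂ)) s - A / (s - 1)) :
    ∃ C : ℝ, ∀ σ : ℝ, 0 < σ → σ ≤ 1 → ∀ Y : ℝ, ∀ N : ℕ,
      ∑ n ∈ Finset.Icc 1 N, f n * (n : ℝ) ^ (-(1 + σ)) * K (Y - Real.log n) ≤ C := by
  obtain ⟨M, hM⟩ : ∃ M : ℝ, ∀ σ : ℝ, 0 < σ → σ ≤ 1 → ∀ y ∈ Icc (-1 : ℝ) 1, ‖F (1 + σ + Complex.I * y)‖ ≤ M := by
    have hcont : ContinuousOn (fun p : ℝ × ℝ => F (1 + (p.1 : ℂ) + Complex.I * p.2)) (Icc 0 1 ×ˢ Icc (-1) 1) := by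
      refine hF.comp (by fun_prop) ?_
      intro p hp
      simp only [mem_ofPred_eq, Complex.add_re, Complex.one_re, Complex.ofReal_re, Complex.mul_re, Complex.I_re,
        zero_mul, Complex.I_im, Complex.ofReal_im, mul_zero, sub_zero, add_zero]
      have := hp.1.1
      linarith
    obtain ⟨M, hM⟩ := (isCompact_Icc.prod isCompact_Icc).exists_bound_of_continuousOn hcont
    exact ⟨M, fun σ h0 h1 y hy => hM (σ, y) ⟨⟨h0.le, h1⟩, hy⟩⟩
  refine ⟨2 * M + |A| * ∫ u, K u, fun σ h0 h1 Y N => ?_⟩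
  set g : ℕ → ℝ := fun n => f n * (n : ℝ) ^ (-(1 + σ)) with hg
  have hg0 : ∀ n, 0 ≤ g n := fun n => mul_nonneg (hf n) (by positivity)
  have hterm : ∀ n : ℕ, ∀ y : ℝ, LSeries.term (fun n => (f n : ℂ)) (1 + σ + Complex.I * y) n =
      (g n : ℂ) * Complex.exp (Complex.I * ((-(Real.log n) * y : ℝ) : ℂ)) := by
    intro n y
    rcases Nat.eq_zero_or_pos n with hn | hn
    · subst hn
      rw [LSeries.term_zero, hg]
      simp only [Nat.cast_zero]
      rw [Real.zero_rpow (by linarith), mul_zero, ofReal_zero, zero_mul]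
    · have hn0 : (n : ℂ) ≠ 0 := by exact_mod_cast hn.ne'
      have hn1 : (0 : ℝ) < n := by exact_mod_cast hn
      rw [LSeries.term_of_ne_zero hn.ne', hg]
      simp only
      rw [Complex.cpow_def_of_ne_zero hn0, div_eq_mul_inv, ← Complex.exp_neg, ofReal_mul, mul_assoc,
        Real.rpow_def_of_pos hn1, ofReal_exp, ← Complex.exp_add]
      congr 2
      rw [← Complex.ofReal_natCast, ← Complex.ofReal_log hn1.le]
      push_cast
      ring
  have hsg : Summable g := by
    have h2 := (hs (1 + σ) (by linarith)).norm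
    refine h2.congr fun n => ?_
    have h3 := hterm n 0
    simp only [ofReal_zero, mul_zero, add_zero, Complex.exp_zero, mul_one] at h3
    have e : ((1 + σ : ℝ) : ℂ) = 1 + σ := by push_cast; ring
    rw [e, h3, Complex.norm_real, Real.norm_of_nonneg (hg0 n)]
  -- the exchange
  have hex : HasSum (fun n => ∫ y in (-1 : ℝ)..1, ((1 - |y| / 1 : ℝ) : ℂ) * Complex.exp (Complex.I * ((Y * y : ℝ) : ℂ)) *
      LSeries.term (fun n => (f n : ℂ)) (1 + σ + Complex.I * y) n)
      (∫ y in (-1 : ℝ)..1, ((1 - |y| / 1 : ℝ) : ℂ) * Complex.exp (Complex.I * ((Y * y : ℝ) : ℂ)) *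
        LSeries (fun n => (f n : ℂ)) (1 + σ + Complex.I * y)) := by
    refine intervalIntegral.hasSum_integral_of_dominated_convergence (fun n _ => g n) (fun n => ?_) (fun n => ?_)
      ?_ ?_ ?_
    · refine Continuous.aestronglyMeasurable ?_
      simp_rw [hterm]
      fun_prop
    · refine Eventually.of_forall fun y hy => ?_
      rw [uIoc_of_le (by norm_num)] at hy
      rw [hterm, norm_mul, norm_mul, norm_mul, Complex.norm_real, Complex.norm_real, Complex.norm_exp, Complex.norm_exp,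
        Real.norm_of_nonneg (hg0 n)]
      simp only [Complex.mul_re, Complex.I_re, Complex.ofReal_re, zero_mul, Complex.I_im, Complex.ofReal_im, mul_zero,
        sub_zero, Real.exp_zero, mul_one]
      have h2 : ‖(1 - |y| / 1 : ℝ)‖ ≤ 1 := by
        have : |y| ≤ 1 := abs_le.2 ⟨hy.1.le, hy.2⟩
        rw [Real.norm_eq_abs, abs_le]
        constructor <;> linarith [abs_nonneg y]
      calc _ ≤ 1 * g n := mul_le_mul_of_nonneg_right h2 (hg0 n)
        _ = g n := one_mul _
    · exact Eventually.of_forall fun y _ => hsg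
    · exact intervalIntegrable_const
    · refine Eventually.of_forall fun y _ => HasSum.mul_left _ ?_
      have h2 : LSeriesSummable (fun n => (f n : ℂ)) (1 + σ + Complex.I * y) := by
        refine (hs (1 + σ) (by linarith)).of_re_le_re ?_
        simp
      exact h2.hasSum
  have hval : ∀ n : ℕ, ∫ y in (-1 : ℝ)..1, ((1 - |y| / 1 : ℝ) : ℂ) * Complex.exp (Complex.I * ((Y * y : ℝ) : ℂ)) *
      LSeries.term (fun n => (f n : ℂ)) (1 + σ + Complex.I * y) n = ((g n * K (Y - Real.log n) : ℝ) : ℂ) := by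
    intro n
    have h2 := fejer_complex 1 (Y - Real.log n) one_pos
    rw [one_mul, one_mul] at h2
    rw [ofReal_mul, ← h2, ← intervalIntegral.integral_const_mul]
    refine intervalIntegral.integral_congr fun y _ => ?_
    beta_reduce
    rw [hterm]
    have e1 : Complex.I * (((Y - Real.log n) * y : ℝ) : ℂ) = Complex.I * ((Y * y : ℝ) : ℂ) +
        Complex.I * ((-(Real.log n) * y : ℝ) : ℂ) := by
      push_cast
      ring
    rw [e1, Complex.exp_add]
    ring
  simp_rw [hval] at hex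
  -- the integral
  have hFL : ∀ y : ℝ, LSeries (fun n => (f n : ℂ)) (1 + σ + Complex.I * y) =
      F (1 + σ + Complex.I * y) + A / ((σ : ℂ) + Complex.I * y) := by
    intro y
    rw [hFE (1 + σ + Complex.I * y) (by simp [h0])]
    have : (1 + σ + Complex.I * y - 1 : ℂ) = σ + Complex.I * y := by ring
    rw [this]
    ring
  have hFc : Continuous fun y : ℝ => F (1 + σ + Complex.I * y) := by
    refine hF.comp_continuous (by fun_prop) fun y => ?_
    simp only [mem_ofPred_eq, Complex.add_re, Complex.one_re, Complex.ofReal_re, Complex.mul_re, Complex.I_re,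
        zero_mul, Complex.I_im, Complex.ofReal_im, mul_zero, sub_zero, add_zero]
    linarith
  have hne : ∀ y : ℝ, ((σ : ℂ) + Complex.I * y) ≠ 0 := by
    intro y h
    have := congrArg Complex.re h
    simp at this
    exact h0.ne' this
  have hsplit : (∫ y in (-1 : ℝ)..1, ((1 - |y| / 1 : ℝ) : ℂ) * Complex.exp (Complex.I * ((Y * y : ℝ) : ℂ)) *
        LSeries (fun n => (f n : ℂ)) (1 + σ + Complex.I * y)) =
      (∫ y in (-1 : ℝ)..1, ((1 - |y| / 1 : ℝ) : ℂ) * Complex.exp (Complex.I * ((Y * y : ℝ) : ℂ)) *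
        F (1 + σ + Complex.I * y)) +
      ((A * ∫ u in Ioi (0 : ℝ), Real.exp (-σ * u) * K (Y - u) : ℝ) : ℂ) := by
    rw [← pole_part A σ Y h0, ← intervalIntegral.integral_add]
    · refine intervalIntegral.integral_congr fun y _ => ?_
      beta_reduce
      rw [hFL]
      ring
    · refine Continuous.intervalIntegrable ?_ _ _
      exact (by fun_prop : Continuous fun y : ℝ => ((1 - |y| / 1 : ℝ) : ℂ) * Complex.exp (Complex.I * ((Y * y : ℝ) : ℂ))).mul hFc
    · refine Continuous.intervalIntegrable ?_ _ _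
      refine (by fun_prop : Continuous fun y : ℝ => ((1 - |y| / 1 : ℝ) : ℂ) * Complex.exp (Complex.I * ((Y * y : ℝ) : ℂ))).mul ?_
      exact continuous_const.div (by fun_prop) hne
  rw [hsplit] at hex
  have hI : ‖∫ y in (-1 : ℝ)..1, ((1 - |y| / 1 : ℝ) : ℂ) * Complex.exp (Complex.I * ((Y * y : ℝ) : ℂ)) *
        F (1 + σ + Complex.I * y)‖ ≤ M * |1 - (-1)| := by
    refine intervalIntegral.norm_integral_le_of_norm_le_const fun y hy => ?_
    rw [uIoc_of_le (by norm_num)] at hy
    rw [norm_mul, norm_mul, Complex.norm_real, Complex.norm_exp]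
    simp only [Complex.mul_re, Complex.I_re, Complex.ofReal_re, zero_mul, Complex.I_im, Complex.ofReal_im, mul_zero,
        sub_zero, Real.exp_zero, mul_one]
    have h2 : ‖(1 - |y| / 1 : ℝ)‖ ≤ 1 := by
      have : |y| ≤ 1 := abs_le.2 ⟨hy.1.le, hy.2⟩
      rw [Real.norm_eq_abs, abs_le]
      constructor <;> linarith [abs_nonneg y]
    have h3 := hM σ h0 h1 y ⟨hy.1.le, hy.2⟩
    calc _ ≤ 1 * M := mul_le_mul h2 h3 (norm_nonneg _) zero_le_one
      _ = M := one_mul _
  have hre := Complex.hasSum_re hex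
  simp only [Complex.ofReal_re, Complex.add_re] at hre
  have h5 := sum_le_hasSum (Finset.Icc 1 N) (fun n _ => mul_nonneg (hg0 n) (K_nonneg (Y - Real.log n))) hre
  refine h5.trans ?_
  have h6 := (Complex.re_le_norm _).trans hI
  have h7 := pole_bound A σ Y h0
  have h8 : M * |(1 : ℝ) - (-1)| = 2 * M := by
    rw [show (1 : ℝ) - (-1) = 2 by norm_num, abs_of_pos (by norm_num : (0 : ℝ) < 2)]
    ring
  rw [h8] at h6
  linarith

/-- the Chebyshev bound -/
theorem cheb (f : ℕ → ℝ) (hf : ∀ n, 0 ≤ f n) (A : ℝ)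
    (hs : ∀ σ : ℝ, 1 < σ → LSeriesSummable (fun n => (f n : ℂ)) σ)
    (F : ℂ → ℂ) (hF : ContinuousOn F {s | 1 ≤ s.re})
    (hFE : ∀ s : ℂ, 1 < s.re → F s = LSeries (fun n => (f n : ℂ)) s - A / (s - 1)) :
    ∃ C : ℝ, ∀ n : ℕ, ∑ k ∈ Finset.Icc 1 n, f k ≤ C * n := by
  obtain ⟨C, hC⟩ := smooth_bound f hf A hs F hF hFE
  have hC0 : 0 ≤ C := by
    have := hC 1 one_pos le_rfl 0 0
    simpa using this
  -- at `σ = 0`
  have h1 : ∀ Y : ℝ, ∀ N : ℕ, ∑ n ∈ Finset.Icc 1 N, f n * (n : ℝ)⁻¹ * K (Y - Real.log n) ≤ C := by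
    intro Y N
    have h2 : Tendsto (fun σ : ℝ => ∑ n ∈ Finset.Icc 1 N, f n * (n : ℝ) ^ (-(1 + σ)) * K (Y - Real.log n)) (𝓝[>] 0)
        (𝓝 (∑ n ∈ Finset.Icc 1 N, f n * (n : ℝ)⁻¹ * K (Y - Real.log n))) := by
      refine tendsto_finsetSum _ fun n hn => ?_
      have hn1 : (0 : ℝ) < n := by exact_mod_cast (Finset.mem_Icc.1 hn).1
      refine Tendsto.mul_const _ (Tendsto.const_mul _ ?_)
      have h3 : Continuous fun σ : ℝ => (n : ℝ) ^ (-(1 + σ)) := by
        exact continuous_const.rpow (by fun_prop) fun σ => Or.inl hn1.ne'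
      have h4 := (h3.tendsto 0).mono_left (nhdsWithin_le_nhds (s := Ioi (0 : ℝ)))
      simpa [Real.rpow_neg_one] using h4
    refine le_of_tendsto h2 ?_
    filter_upwards [Ioc_mem_nhdsGT (zero_lt_one (α := ℝ))] with σ hσ
    exact hC σ hσ.1 hσ.2 Y N
  have h2 : ∀ N : ℕ, ∑ n ∈ Finset.Ioc (N / 2) N, f n ≤ (5 / 2 * C) * N := by
    intro N
    rcases Nat.eq_zero_or_pos N with hN | hN
    · subst hN
      simp
    have hN0 : (0 : ℝ) < N := by exact_mod_cast hN
    have h3 : ∑ n ∈ Finset.Ioc (N / 2) N, f n * (2 / 5 * (N : ℝ)⁻¹) ≤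
        ∑ n ∈ Finset.Icc 1 N, f n * (n : ℝ)⁻¹ * K (Real.log N - Real.log n) := by
      calc _ ≤ ∑ n ∈ Finset.Ioc (N / 2) N, f n * (n : ℝ)⁻¹ * K (Real.log N - Real.log n) := by
            refine Finset.sum_le_sum fun n hn => ?_
            rw [Finset.mem_Ioc] at hn
            have hn0 : (0 : ℝ) < n := by
              have : 0 < n := by omega
              exact_mod_cast this
            have hnN : (n : ℝ) ≤ N := by exact_mod_cast hn.2
            have hn2 : (N : ℝ) ≤ 2 * n := by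
              have : N ≤ 2 * n := by omega
              exact_mod_cast this
            have h4 : |Real.log N - Real.log n| ≤ 1 := by
              have h5 : Real.log n ≤ Real.log N := Real.log_le_log hn0 hnN
              have h6 : Real.log N ≤ Real.log 2 + Real.log n := by
                rw [← Real.log_mul (by norm_num) hn0.ne']
                exact Real.log_le_log hN0 hn2
              have := Real.log_two_lt_d9
              rw [abs_le]
              constructor <;> linarith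
            have h5 := K_lower h4
            have h6 : (N : ℝ)⁻¹ ≤ (n : ℝ)⁻¹ := inv_anti₀ hn0 hnN
            have h7 : 2 / 5 * (N : ℝ)⁻¹ ≤ (n : ℝ)⁻¹ * K (Real.log N - Real.log n) := by
              calc 2 / 5 * (N : ℝ)⁻¹ = (N : ℝ)⁻¹ * (2 / 5) := by ring
                _ ≤ _ := mul_le_mul h6 h5 (by norm_num) (by positivity)
            calc f n * (2 / 5 * (N : ℝ)⁻¹) ≤ f n * ((n : ℝ)⁻¹ * K (Real.log N - Real.log n)) :=
                  mul_le_mul_of_nonneg_left h7 (hf n)
              _ = _ := by ring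
        _ ≤ _ := by
            refine Finset.sum_le_sum_of_subset_of_nonneg (fun n hn => ?_) fun n hn _ => ?_
            · rw [Finset.mem_Ioc] at hn
              rw [Finset.mem_Icc]
              omega
            · exact mul_nonneg (mul_nonneg (hf n) (by positivity)) (K_nonneg _)
    have h4 := h3.trans (h1 (Real.log N) N)
    rw [← Finset.sum_mul] at h4
    have h5 : (∑ n ∈ Finset.Ioc (N / 2) N, f n) = (∑ n ∈ Finset.Ioc (N / 2) N, f n) * (2 / 5 * (N : ℝ)⁻¹) * (5 / 2 * N) := by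
      field_simp
    rw [h5]
    calc _ ≤ C * (5 / 2 * N) := mul_le_mul_of_nonneg_right h4 (by positivity)
      _ = _ := by ring
  refine ⟨5 * C, fun n => ?_⟩
  induction n using Nat.strong_induction_on with
  | _ n ih =>
    rcases Nat.eq_zero_or_pos n with hn | hn
    · subst hn
      simp
    have h3 : ∑ k ∈ Finset.Icc 1 n, f k = ∑ k ∈ Finset.Icc 1 (n / 2), f k + ∑ k ∈ Finset.Ioc (n / 2) n, f k := by
      have e1 : Finset.Icc 1 n = Finset.Icc 1 (n / 2) ∪ Finset.Ioc (n / 2) n := by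
        ext k
        simp only [Finset.mem_union, Finset.mem_Icc, Finset.mem_Ioc]
        omega
      rw [e1, Finset.sum_union]
      rw [Finset.disjoint_left]
      intro k h4 h5
      rw [Finset.mem_Icc] at h4
      rw [Finset.mem_Ioc] at h5
      omega
    rw [h3]
    have h4 := ih (n / 2) (by omega)
    have h5 := h2 n
    have h6 : ((n / 2 : ℕ) : ℝ) ≤ n / 2 := Nat.cast_div_le
    nlinarith

/-- **The Wiener-Ikehara theorem.** -/
theorem wi (f : ℕ → ℝ) (hf : ∀ n, 0 ≤ f n) (A : ℝ)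
    (hs : ∀ σ : ℝ, 1 < σ → LSeriesSummable (fun n => (f n : ℂ)) σ)
    (F : ℂ → ℂ) (hF : ContinuousOn F {s | 1 ≤ s.re})
    (hFE : ∀ s : ℂ, 1 < s.re → F s = LSeries (fun n => (f n : ℂ)) s - A / (s - 1)) :
    Tendsto (fun x : ℝ => (∑ k ∈ Finset.Icc 1 ⌊x⌋₊, f k) / x) atTop (𝓝 A) := by
  obtain ⟨C, hC⟩ := cheb f hf A hs F hF hFE
  exact Pool.Agent.Helper923.PNT.wiener_ikehara f hf C A hC F hF hFE

end Pool.Agent.T2H30.DN
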