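import Mathlib
import Pool.Agent.T2H30.DN.WI
import Pool.Agent.T2H30.DN.Defs
import Pool.Agent.TH861.GL3.Main
import Pool.Agent.T2H30.SU3.Theta

/-! Prime number theorems for Euler products. -/

set_option autoImplicit false

open Complex MeasureTheory Set Filter Topology NumberField IsDedekindDomain
open Pool.Agent.TH861.GL3
open Pool.Agent.W189.TP (DS DS_diff norm_term summ_cplx summ_mono)

namespace Pool.Agent.T2H30.DN

variable {K : Type*} [Field K] [NumberField K] {S : Finset (HeightOneSpectrum (𝓞 K))}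

/-- `log q_v` -/
noncomputable def lq (x : PL S × ℕ) : ℝ := Real.log (qq x.1.1 : ℝ)

/-- the norm of the prime power -/
noncomputable def Nx (x : PL S × ℕ) : ℕ := qq x.1.1 ^ (x.2 + 1)

theorem lq_pos (x : PL S × ℕ) : 0 < lq x := Real.log_pos (one_lt_qq x.1.1)

theorem LL_eq (x : PL S × ℕ) : LL x = ((x.2 : ℝ) + 1) * lq x := rfl

theorem lq_le (x : PL S × ℕ) : lq x ≤ LL x := by
  rw [LL_eq]
  have := lq_pos x
  have h2 : (0 : ℝ) ≤ x.2 := Nat.cast_nonneg _
  nlinarith

theorem Nx_pos (x : PL S × ℕ) : 0 < Nx x := pow_pos (by have := two_le_qq x.1.1; omega) _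

theorem exp_LL' (x : PL S × ℕ) : Real.exp (LL x) = Nx x := by
  have h := rexp_LL x (-1)
  rw [neg_mul, one_mul, neg_neg, neg_neg, Real.rpow_one] at h
  rw [h]
  unfold Nx
  push_cast
  rfl

theorem cexp_LL' (x : PL S × ℕ) (s : ℂ) : Complex.exp (-(s * LL x)) = ((Nx x : ℕ) : ℂ) ^ (-s) := by
  have h0 : ((Nx x : ℕ) : ℂ) ≠ 0 := by exact_mod_cast (Nx_pos x).ne'
  have h1 : (0 : ℝ) < Nx x := by exact_mod_cast Nx_pos x
  rw [Complex.cpow_def_of_ne_zero h0, ← Complex.ofReal_natCast, ← Complex.ofReal_log h1.le, ← exp_LL', Real.log_exp]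
  congr 1
  ring

theorem Nx_finite (N : ℕ) : {x : PL S × ℕ | Nx x ≤ N}.Finite := by
  have h1 : {v : PL S | qq v.1 ≤ N}.Finite := by
    have := (finite_nm_le (K := K) N).preimage (f := fun v : PL S => v.1) (Subtype.val_injective.injOn)
    exact this
  refine (h1.prod (Set.finite_lt_nat N)).subset fun x hx => ?_
  have hx' : qq x.1.1 ^ (x.2 + 1) ≤ N := hx
  have h2 := two_le_qq x.1.1
  refine ⟨?_, ?_⟩
  · calc qq x.1.1 = qq x.1.1 ^ 1 := (pow_one _).symm
      _ ≤ qq x.1.1 ^ (x.2 + 1) := Nat.pow_le_pow_right (by omega) (by omega)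
      _ ≤ N := hx'
  · have h3 : x.2 + 1 < 2 ^ (x.2 + 1) := Nat.lt_two_pow_self
    have h4 : 2 ^ (x.2 + 1) ≤ qq x.1.1 ^ (x.2 + 1) := Nat.pow_le_pow_left h2 _
    show x.2 < N
    omega

variable {c : PL S × ℕ → ℝ} {m : ℕ}

theorem EulerProduct.sum_abs (h : EulerProduct c m) {σ : ℝ} (hσ : 1 < σ) :
    Summable fun x : PL S × ℕ => |c x / ((x.2 : ℝ) + 1)| * Real.exp (-(σ * LL x)) := by
  refine (h.summable σ hσ).congr fun x => ?_
  rw [rexp_LL, abs_div, abs_of_pos (by positivity : (0 : ℝ) < (x.2 : ℝ) + 1)]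

theorem mul_exp_le {x δ : ℝ} (hδ : 0 < δ) : x * Real.exp (-(δ * x)) ≤ 1 / δ := by
  have h1 := Real.add_one_le_exp (δ * x)
  rw [Real.exp_neg, ← div_eq_mul_inv, div_le_div_iff₀ (Real.exp_pos _) hδ]
  nlinarith

theorem EulerProduct.sum_log (h : EulerProduct c m) {σ : ℝ} (hσ : 1 < σ) :
    Summable fun x : PL S × ℕ => |c x * lq x| * Real.exp (-(σ * LL x)) := by
  have h1 := (h.sum_abs (σ := (1 + σ) / 2) (by linarith)).mul_left (1 / ((σ - 1) / 2))
  refine Summable.of_nonneg_of_le (fun x => by positivity) (fun x => ?_) h1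
  have h2 := mul_exp_le (x := LL x) (δ := (σ - 1) / 2) (by linarith)
  have h3 : |c x * lq x| = |c x / ((x.2 : ℝ) + 1)| * LL x := by
    rw [abs_mul, abs_div, abs_of_pos (by positivity : (0 : ℝ) < (x.2 : ℝ) + 1), abs_of_pos (lq_pos x), LL_eq]
    field_simp
  have h4 : Real.exp (-(σ * LL x)) = Real.exp (-((σ - 1) / 2 * LL x)) * Real.exp (-((1 + σ) / 2 * LL x)) := by
    rw [← Real.exp_add]
    congr 1
    ring
  rw [h3, h4]
  calc |c x / ((x.2 : ℝ) + 1)| * LL x * (Real.exp (-((σ - 1) / 2 * LL x)) * Real.exp (-((1 + σ) / 2 * LL x)))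
      = (LL x * Real.exp (-((σ - 1) / 2 * LL x))) * (|c x / ((x.2 : ℝ) + 1)| * Real.exp (-((1 + σ) / 2 * LL x))) := by
        ring
    _ ≤ _ := mul_le_mul_of_nonneg_right h2 (by positivity)

/-- the logarithmic derivative, with a simple pole of residue `A`, is continuous up to the line -/
def Cont (c : PL S × ℕ → ℝ) (A : ℝ) : Prop :=
  (∀ σ : ℝ, 1 < σ → Summable fun x : PL S × ℕ => |c x * lq x| * Real.exp (-(σ * LL x))) ∧
  ∃ F : ℂ → ℂ, ContinuousOn F {s | 1 ≤ s.re} ∧
    ∀ s : ℂ, 1 < s.re → F s = DS (fun x => c x * lq x) LL s - A / (s - 1)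

theorem EulerProduct.cont (h : EulerProduct c m) : Cont c m := by
  refine ⟨fun σ hσ => h.sum_log hσ, ?_⟩
  obtain ⟨G, hG, hGE⟩ := h.continuation
  set d : PL S × ℕ → ℝ := fun x => c x / ((x.2 : ℝ) + 1) with hd
  have hE : ∀ s : ℂ, 1 < s.re → G s = (s - 1) ^ m * Complex.exp (DS d LL s) := by
    intro s hs
    rw [hGE s hs]
    unfold DS
    simp_rw [exp_LL]
    rfl
  refine ⟨fun s => -(deriv G s / G s), ?_, ?_⟩
  · intro s hs
    have h1 := hG s hs
    exact (ContinuousAt.neg (ContinuousAt.div h1.1.deriv.continuousAt h1.1.continuousAt h1.2)).continuousWithinAt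
  · intro s hs
    have hop : IsOpen {s : ℂ | 1 < s.re} := isOpen_lt continuous_const Complex.continuous_re
    -- derivative of the Dirichlet series
    have hσ' : 1 < (1 + s.re) / 2 := by linarith
    have h1 := Complex.hasSum_deriv_of_summable_norm (F := fun (x : PL S × ℕ) (w : ℂ) => (d x : ℂ) * Complex.exp (-(w * LL x)))
      (U := {w : ℂ | (1 + s.re) / 2 < w.re}) (z := s) (h.sum_abs hσ') (fun i => by fun_prop)
      (isOpen_lt continuous_const Complex.continuous_re) (fun i w hw => by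
        rw [norm_term]
        have := LL_nonneg i
        have hw' : (1 + s.re) / 2 < w.re := hw
        gcongr) (show (1 + s.re) / 2 < s.re by linarith)
    have h2 : ∀ x : PL S × ℕ, deriv (fun w : ℂ => (d x : ℂ) * Complex.exp (-(w * LL x))) s =
        -(((c x * lq x : ℝ) : ℂ) * Complex.exp (-(s * LL x))) := by
      intro x
      have h3 : HasDerivAt (fun w : ℂ => (d x : ℂ) * Complex.exp (-(w * LL x)))
          ((d x : ℂ) * (Complex.exp (-(s * LL x)) * (-(1 * (LL x : ℂ))))) s :=
        ((((hasDerivAt_id s).mul_const (LL x : ℂ)).neg).cexp).const_mul _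
      rw [h3.deriv]
      have h4 : (d x : ℂ) * (LL x : ℂ) = ((c x * lq x : ℝ) : ℂ) := by
        rw [← Complex.ofReal_mul]
        congr 1
        rw [hd, LL_eq]
        field_simp
      rw [← h4]
      ring
    simp_rw [h2] at h1
    have h3 : deriv (fun w => DS d LL w) s = -DS (fun x => c x * lq x) LL s := by
      have h4 := h1.neg.tsum_eq
      simp only [neg_neg] at h4
      unfold DS
      rw [h4, neg_neg]
    have hDd : DifferentiableAt ℂ (DS d LL) s := by
      have := DS_diff (d := d) LL_nonneg (σ := 1) (fun t ht => h.sum_abs ht)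
      exact this.differentiableAt (hop.mem_nhds hs)
    -- logarithmic derivative of `G`
    have hs1 : s - 1 ≠ 0 := by
      intro h0
      have := congrArg Complex.re h0
      simp at this
      linarith
    have h5 : deriv G s = deriv (fun w => (w - 1) ^ m * Complex.exp (DS d LL w)) s := by
      refine Filter.EventuallyEq.deriv_eq ?_
      filter_upwards [hop.mem_nhds hs] with w hw
      exact hE w hw
    have h6 : HasDerivAt (fun w => (w - 1) ^ m * Complex.exp (DS d LL w))
        ((m : ℂ) * (s - 1) ^ (m - 1) * Complex.exp (DS d LL s) + (s - 1) ^ m *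
          (Complex.exp (DS d LL s) * deriv (DS d LL) s)) s := by
      have h7 : HasDerivAt (fun w : ℂ => (w - 1) ^ m) ((m : ℂ) * (s - 1) ^ (m - 1) * 1) s :=
        ((hasDerivAt_id s).sub_const 1).pow m
      rw [mul_one] at h7
      exact h7.mul hDd.hasDerivAt.cexp
    have h8 : deriv G s / G s = (m : ℂ) / (s - 1) + deriv (DS d LL) s := by
      rw [h5, h6.deriv, hE s hs]
      have he : Complex.exp (DS d LL s) ≠ 0 := Complex.exp_ne_zero _
      have hp : (s - 1) ^ m ≠ 0 := pow_ne_zero _ hs1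
      rw [div_eq_iff (mul_ne_zero hp he)]
      rcases Nat.eq_zero_or_pos m with hm | hm
      · subst hm
        simp
        ring
      · have h9 : (s - 1) ^ m = (s - 1) ^ (m - 1) * (s - 1) := by
          rw [← pow_succ]
          congr 1
          omega
        rw [h9]
        field_simp
        try ring
    have h9 : deriv (DS d LL) s = -DS (fun x => c x * lq x) LL s := h3
    simp only
    rw [h8, h9]
    push_cast
    ring

theorem Cont.add {c₁ c₂ : PL S × ℕ → ℝ} {A₁ A₂ : ℝ} (h₁ : Cont c₁ A₁) (h₂ : Cont c₂ A₂) :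
    Cont (fun x => c₁ x + c₂ x) (A₁ + A₂) := by
  obtain ⟨s1, F1, hF1, hE1⟩ := h₁
  obtain ⟨s2, F2, hF2, hE2⟩ := h₂
  refine ⟨fun σ hσ => ?_, fun s => F1 s + F2 s, hF1.add hF2, fun s hs => ?_⟩
  · refine Summable.of_nonneg_of_le (fun x => by positivity) (fun x => ?_) ((s1 σ hσ).add (s2 σ hσ))
    rw [← add_mul, add_mul (c₁ x)]
    exact mul_le_mul_of_nonneg_right (abs_add_le _ _) (Real.exp_pos _).le
  · simp only
    rw [hE1 s hs, hE2 s hs]
    have e1 := summ_cplx (d := fun x => c₁ x * lq x) LL_nonneg (σ := (1 + s.re) / 2) (s := s) (by linarith)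
      (s1 _ (by linarith))
    have e2 := summ_cplx (d := fun x => c₂ x * lq x) LL_nonneg (σ := (1 + s.re) / 2) (s := s) (by linarith)
      (s2 _ (by linarith))
    have e3 : DS (fun x => (c₁ x + c₂ x) * lq x) LL s = DS (fun x => c₁ x * lq x) LL s + DS (fun x => c₂ x * lq x) LL s := by
      unfold DS
      rw [← e1.tsum_add e2]
      refine tsum_congr fun x => ?_
      push_cast
      ring
    rw [e3]
    push_cast
    ring

theorem Cont.smul {c : PL S × ℕ → ℝ} {A : ℝ} (h : Cont c A) (r : ℝ) : Cont (fun x => r * c x) (r * A) := by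
  obtain ⟨s1, F1, hF1, hE1⟩ := h
  refine ⟨fun σ hσ => ?_, fun s => (r : ℂ) * F1 s, continuousOn_const.mul hF1, fun s hs => ?_⟩
  · refine ((s1 σ hσ).mul_left |r|).congr fun x => ?_
    rw [mul_assoc r, abs_mul r]
    ring
  · simp only
    rw [hE1 s hs]
    have e3 : DS (fun x => r * c x * lq x) LL s = r * DS (fun x => c x * lq x) LL s := by
      unfold DS
      rw [← tsum_mul_left]
      refine tsum_congr fun x => ?_
      push_cast
      ring
    rw [e3]
    push_cast
    ring

end Pool.Agent.T2H30.DN
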