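import Mathlib
import Pool.Agent.T2H30.DN.Ser

/-! Prime number theorems for Euler products, continued. -/

set_option autoImplicit false

open Complex MeasureTheory Set Filter Topology NumberField IsDedekindDomain
open Pool.Agent.TH861.GL3
open Pool.Agent.W189.TP (DS DS_diff norm_term summ_cplx summ_mono)

namespace Pool.Agent.T2H30.DN

variable {K : Type*} [Field K] [NumberField K] {S : Finset (HeightOneSpectrum (𝓞 K))}

open scoped Classical in
/-- `∑_{q_v^k ≤ X} c_{v,k} log q_v` -/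
noncomputable def psi (c : PL S × ℕ → ℝ) (X : ℝ) : ℝ := ∑' x : PL S × ℕ, if (Nx x : ℝ) ≤ X then c x * lq x else 0

variable {c : PL S × ℕ → ℝ} {A : ℝ}

theorem Nx_finite' (X : ℝ) : {x : PL S × ℕ | (Nx x : ℝ) ≤ X}.Finite := by
  rcases lt_or_ge X 0 with h | h
  · convert Set.finite_empty
    ext x
    simp only [Set.mem_ofPred_eq, Set.mem_empty_iff_false, iff_false, not_le]
    exact h.trans_le (Nat.cast_nonneg _)
  · refine (Nx_finite (S := S) ⌊X⌋₊).subset fun x hx => ?_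
    exact Nat.le_floor hx

open scoped Classical in
theorem psi_summable (c : PL S × ℕ → ℝ) (X : ℝ) :
    Summable fun x : PL S × ℕ => if (Nx x : ℝ) ≤ X then c x * lq x else 0 := by
  refine summable_of_hasFiniteSupport ((Nx_finite' (S := S) X).subset fun x hx => ?_)
  by_contra h1
  exact hx (if_neg h1)

/-- the coefficients of the Dirichlet series over the natural numbers -/
noncomputable def fN (c : PL S × ℕ → ℝ) (n : ℕ) : ℝ := ∑' x : (Nx ⁻¹' {n} : Set (PL S × ℕ)), c x.1 * lq x.1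

theorem fN_zero (c : PL S × ℕ → ℝ) : fN c 0 = 0 := by
  have : IsEmpty (Nx ⁻¹' {0} : Set (PL S × ℕ)) := ⟨fun x => (Nx_pos x.1).ne' x.2⟩
  unfold fN
  exact tsum_empty

theorem fN_nonneg (hc : ∀ x, 0 ≤ c x) (n : ℕ) : 0 ≤ fN c n := tsum_nonneg fun x => mul_nonneg (hc _) (lq_pos _).le

theorem fN_hasSum (h : ∀ σ : ℝ, 1 < σ → Summable fun x : PL S × ℕ => |c x * lq x| * Real.exp (-(σ * LL x)))
    {s : ℂ} (hs : 1 < s.re) :
    HasSum (fun n => LSeries.term (fun n => (fN c n : ℂ)) s n) (DS (fun x => c x * lq x) LL s) := by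
  have h1 := (summ_cplx (d := fun x => c x * lq x) LL_nonneg (σ := (1 + s.re) / 2) (s := s) (by linarith)
      (h _ (by linarith))).hasSum.tsum_fiberwise Nx
  refine h1.congr_fun fun n => ?_
  rcases Nat.eq_zero_or_pos n with hn | hn
  · subst hn
    rw [LSeries.term_zero]
    have : IsEmpty (Nx ⁻¹' {0} : Set (PL S × ℕ)) := ⟨fun x => (Nx_pos x.1).ne' x.2⟩
    exact tsum_empty.symm
  · rw [LSeries.term_of_ne_zero hn.ne']
    have h2 : ∀ b : (Nx ⁻¹' {n} : Set (PL S × ℕ)), ((c b.1 * lq b.1 : ℝ) : ℂ) * Complex.exp (-(s * LL b.1)) =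
        ((c b.1 * lq b.1 : ℝ) : ℂ) * (n : ℂ) ^ (-s) := by
      intro b
      rw [cexp_LL']
      have : Nx b.1 = n := b.2
      rw [this]
    simp_rw [h2]
    rw [tsum_mul_right, ← Complex.ofReal_tsum, Complex.cpow_neg, div_eq_mul_inv]
    rfl

theorem fN_sum (c : PL S × ℕ → ℝ) {X : ℝ} (hX : 0 ≤ X) : ∑ k ∈ Finset.Icc 1 ⌊X⌋₊, fN c k = psi c X := by
  classical
  have h1 := (psi_summable c X).hasSum.tsum_fiberwise Nx
  have h2 : ∀ n : ℕ, ∑' b : (Nx ⁻¹' {n} : Set (PL S × ℕ)), (if (Nx b.1 : ℝ) ≤ X then c b.1 * lq b.1 else 0) =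
      if n ≤ ⌊X⌋₊ then fN c n else 0 := by
    intro n
    by_cases hn : n ≤ ⌊X⌋₊
    · rw [if_pos hn]
      refine tsum_congr fun b => ?_
      have : Nx b.1 = n := b.2
      rw [this, if_pos ((Nat.le_floor_iff hX).1 hn)]
    · rw [if_neg hn]
      refine (tsum_congr fun b => ?_).trans tsum_zero
      have : Nx b.1 = n := b.2
      rw [this, if_neg fun h => hn ((Nat.le_floor_iff hX).2 h)]
  have h3 : HasSum (fun n : ℕ => if n ≤ ⌊X⌋₊ then fN c n else 0) (psi c X) := by
    refine h1.congr_fun fun n => ?_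
    rw [← h2 n]
  have h4 : HasSum (fun n : ℕ => if n ≤ ⌊X⌋₊ then fN c n else 0)
      (∑ n ∈ Finset.Icc 1 ⌊X⌋₊, if n ≤ ⌊X⌋₊ then fN c n else 0) := by
    refine hasSum_sum_of_ne_finset_zero fun n hn => ?_
    rw [Finset.mem_Icc, not_and_or] at hn
    rcases hn with hn | hn
    · have : n = 0 := by omega
      subst this
      rw [fN_zero, ite_self]
    · rw [if_neg hn]
  rw [← h4.unique h3]
  refine Finset.sum_congr rfl fun n hn => ?_
  rw [if_pos (Finset.mem_Icc.1 hn).2]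

/-- **prime number theorem** -/
theorem Cont.tendsto (h : Cont c A) (hc : ∀ x, 0 ≤ c x) : Tendsto (fun X : ℝ => psi c X / X) atTop (𝓝 A) := by
  obtain ⟨hs, F, hF, hFE⟩ := h
  have h1 : ∀ s : ℂ, 1 < s.re → LSeries (fun n => (fN c n : ℂ)) s = DS (fun x => c x * lq x) LL s := fun s h =>
    (fN_hasSum hs h).tsum_eq
  have h2 := wi (fN c) (fN_nonneg hc) A (fun σ hσ => (fN_hasSum hs (s := (σ : ℂ)) (by simpa using hσ)).summable) F hF
    fun s hs' => by rw [hFE s hs', h1 s hs']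
  refine h2.congr' ?_
  filter_upwards [eventually_ge_atTop 0] with X hX
  rw [fN_sum c hX]

theorem psi_add (c₁ c₂ : PL S × ℕ → ℝ) (X : ℝ) : psi (fun x => c₁ x + c₂ x) X = psi c₁ X + psi c₂ X := by
  classical
  unfold psi
  rw [← (psi_summable c₁ X).tsum_add (psi_summable c₂ X)]
  refine tsum_congr fun x => ?_
  split_ifs
  · ring
  · ring

theorem psi_smul (c : PL S × ℕ → ℝ) (r X : ℝ) : psi (fun x => r * c x) X = r * psi c X := by
  classical
  unfold psi
  rw [← tsum_mul_left]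
  refine tsum_congr fun x => ?_
  split_ifs
  · ring
  · ring

end Pool.Agent.T2H30.DN
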