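import Mathlib
import Pool.Agent.T2H30.DN.Psi

/-! Natural densities. -/

set_option autoImplicit false

open Set Filter Topology NumberField IsDedekindDomain
open Pool.Agent.TH861.GL3

namespace Pool.Agent.T2H30.DN

theorem interval_tendsto {f : ℝ → ℝ} {A : ℝ} (h : Tendsto (fun X => f X / X) atTop (𝓝 A)) {η : ℝ} (hη : 0 < η) :
    Tendsto (fun X => (f ((1 + η) * X) - f X) / X) atTop (𝓝 (η * A)) := by
  have h1 : Tendsto (fun X : ℝ => (1 + η) * X) atTop atTop := tendsto_id.const_mul_atTop (by linarith)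
  have h2 := ((h.comp h1).const_mul (1 + η)).sub h
  have e : (1 + η) * A - A = η * A := by ring
  rw [e] at h2
  refine h2.congr' ?_
  filter_upwards [eventually_gt_atTop 0] with X hX
  simp only [Function.comp]
  have : 0 < 1 + η := by linarith
  field_simp

section
variable {K : Type*} [Field K] [NumberField K] {S : Finset (HeightOneSpectrum (𝓞 K))}

theorem IS_finite (P : PL S → Prop) (X η : ℝ) :
    {v : PL S | X < (qq v.1 : ℝ) ∧ (qq v.1 : ℝ) ≤ (1 + η) * X ∧ P v}.Finite := by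
  have h1 := Nx_finite' (S := S) ((1 + η) * X)
  refine (h1.preimage (f := fun v : PL S => (v, 0)) (fun v _ w _ h => (Prod.ext_iff.1 h).1)).subset fun v hv => ?_
  show (Nx (v, 0) : ℝ) ≤ (1 + η) * X
  unfold Nx
  simpa using hv.2.1

open scoped Classical in
theorem count_le {c : PL S × ℕ → ℝ} (hc : ∀ x, 0 ≤ c x) {P : PL S → Prop} {κ : ℝ} (hκ : 0 < κ)
    (hP : ∀ v, P v → κ ≤ c (v, 0)) {X η : ℝ} (hX : 1 < X) (hη : 0 < η) :
    (({v : PL S | X < (qq v.1 : ℝ) ∧ (qq v.1 : ℝ) ≤ (1 + η) * X ∧ P v}.ncard : ℕ) : ℝ) * (κ * Real.log X) ≤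
      psi c ((1 + η) * X) - psi c X := by
  set I := {v : PL S | X < (qq v.1 : ℝ) ∧ (qq v.1 : ℝ) ≤ (1 + η) * X ∧ P v} with hI
  have hfin := IS_finite P X η
  rw [Set.ncard_eq_toFinset_card _ hfin]
  have h1 : psi c ((1 + η) * X) - psi c X = ∑' x : PL S × ℕ,
      if X < (Nx x : ℝ) ∧ (Nx x : ℝ) ≤ (1 + η) * X then c x * lq x else 0 := by
    unfold psi
    rw [← (psi_summable c ((1 + η) * X)).tsum_sub (psi_summable c X)]
    refine tsum_congr fun x => ?_
    by_cases h2 : (Nx x : ℝ) ≤ X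
    · have h3 : (Nx x : ℝ) ≤ (1 + η) * X := by nlinarith
      rw [if_pos h2, if_pos h3, if_neg (fun h => absurd h2 (not_le.2 h.1)), sub_self]
    · by_cases h3 : (Nx x : ℝ) ≤ (1 + η) * X
      · rw [if_neg h2, if_pos h3, if_pos ⟨not_le.1 h2, h3⟩, sub_zero]
      · rw [if_neg h2, if_neg h3, if_neg (fun h => h3 h.2), sub_zero]
  have hs : Summable fun x : PL S × ℕ => if X < (Nx x : ℝ) ∧ (Nx x : ℝ) ≤ (1 + η) * X then c x * lq x else 0 := by
    refine summable_of_hasFiniteSupport ((Nx_finite' (S := S) ((1 + η) * X)).subset fun x hx => ?_)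
    by_contra h1
    exact hx (if_neg fun h => h1 h.2)
  rw [h1]
  have hinj : Set.InjOn (fun v : PL S => ((v, 0) : PL S × ℕ)) hfin.toFinset := fun v _ w _ h => (Prod.ext_iff.1 h).1
  have h2 := hs.sum_le_tsum (hfin.toFinset.image fun v => ((v, 0) : PL S × ℕ)) (fun x _ => by
    split_ifs
    · exact mul_nonneg (hc x) (lq_pos x).le
    · exact le_rfl)
  rw [Finset.sum_image hinj] at h2
  refine le_trans ?_ h2
  rw [← nsmul_eq_mul]
  refine Finset.card_nsmul_le_sum _ _ _ fun v hv => ?_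
  rw [Set.Finite.mem_toFinset] at hv
  have e1 : (Nx (v, 0) : ℝ) = qq v.1 := by
    unfold Nx
    simp
  rw [e1, if_pos ⟨hv.1, hv.2.1⟩]
  have h3 : Real.log X ≤ lq (v, 0) := Real.log_le_log (by linarith) hv.1.le
  have h4 := Real.log_pos hX
  exact mul_le_mul (hP v hv.2.2) h3 h4.le (hc _)

theorem upper_of_tendsto {c : PL S × ℕ → ℝ} (hc : ∀ x, 0 ≤ c x) {A : ℝ}
    (h : Tendsto (fun X => psi c X / X) atTop (𝓝 A)) {P : PL S → Prop} {κ : ℝ} (hκ : 0 < κ)
    (hP : ∀ v, P v → κ ≤ c (v, 0)) : UpperDensityLE P (A / κ) := by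
  intro η hη ε hε
  have h1 := interval_tendsto h hη
  have h2 : ∀ᶠ X in atTop, (psi c ((1 + η) * X) - psi c X) / X < η * A + ε * κ * η :=
    h1.eventually_lt_const (by have : 0 < ε * κ * η := (by positivity); linarith)
  obtain ⟨X₀, hX₀⟩ := eventually_atTop.1 (h2.and (eventually_gt_atTop 1))
  refine ⟨X₀, fun X hX => ?_⟩
  obtain ⟨h3, h4⟩ := hX₀ X hX
  have h5 := count_le hc hκ hP h4 hη
  have h6 := Real.log_pos h4
  have h7 : psi c ((1 + η) * X) - psi c X ≤ (η * A + ε * κ * η) * X := by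
    rw [div_lt_iff₀ (by linarith)] at h3
    exact h3.le
  have h8 := h5.trans h7
  rw [← le_div_iff₀ (by positivity)] at h8
  refine h8.trans (le_of_eq ?_)
  field_simp

end

section
variable {K : Type} [Field K] [NumberField K] {S : Finset (HeightOneSpectrum (𝓞 K))}

open Pool.Agent.H921R2.TatePole (nm) in
open H332.PIT (prLE mem_prLE log_nm_nonneg) in
open scoped Classical in
/-- the prime ideal theorem -/
theorem total : LowerDensityGE (fun _ : PL S => True) 1 := by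
  intro η hη ε hε
  have h1 : Tendsto (fun X : ℝ => Pool.Agent.T2H30.SU3.thK K ⌊X⌋₊ / X) atTop (𝓝 1) := by
    have h2 := (Pool.Agent.T2H30.SU3.thK_tendsto (K := K)).comp (tendsto_nat_floor_atTop (α := ℝ))
    have h3 := h2.mul (tendsto_nat_floor_div_atTop (R := ℝ))
    rw [one_mul] at h3
    refine h3.congr' ?_
    filter_upwards [eventually_ge_atTop 1] with X hX
    simp only [Function.comp]
    have h4 : (0 : ℝ) < (⌊X⌋₊ : ℝ) := by exact_mod_cast Nat.floor_pos.2 hX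
    field_simp
  have h2 := interval_tendsto (f := fun X => Pool.Agent.T2H30.SU3.thK K ⌊X⌋₊) h1 hη
  rw [mul_one] at h2
  have hlog : Tendsto (fun X : ℝ => Real.log X / Real.log ((1 + η) * X)) atTop (𝓝 1) := by
    have h3 : Tendsto (fun X : ℝ => 1 + Real.log (1 + η) / Real.log X) atTop (𝓝 (1 + 0)) :=
      tendsto_const_nhds.add (tendsto_const_nhds.div_atTop Real.tendsto_log_atTop)
    rw [add_zero] at h3
    have h4 := h3.inv₀ one_ne_zero
    rw [inv_one] at h4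
    refine h4.congr' ?_
    filter_upwards [eventually_gt_atTop 1] with X hX
    have h5 := Real.log_pos hX
    rw [Real.log_mul (by linarith) (by linarith)]
    have h6 : 0 < Real.log (1 + η) := Real.log_pos (by linarith)
    field_simp
    ring
  have h3 := h2.mul hlog
  rw [mul_one] at h3
  have h4 : ∀ᶠ X : ℝ in atTop, (1 - ε) * η < (Pool.Agent.T2H30.SU3.thK K ⌊(1 + η) * X⌋₊ -
      Pool.Agent.T2H30.SU3.thK K ⌊X⌋₊) / X * (Real.log X / Real.log ((1 + η) * X)) :=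
    h3.eventually_const_lt (by nlinarith)
  -- the places in `S`
  obtain ⟨B, hB⟩ : ∃ B : ℝ, ∀ v ∈ S, (nm v : ℝ) ≤ B := by
    obtain ⟨B, hB⟩ := (S.finite_toSet.image fun v => (nm v : ℝ)).bddAbove
    exact ⟨B, fun v hv => hB ⟨v, hv, rfl⟩⟩
  obtain ⟨X₀, hX₀⟩ := eventually_atTop.1 (h4.and ((eventually_gt_atTop 1).and (eventually_ge_atTop B)))
  refine ⟨X₀, fun X hX => ?_⟩
  obtain ⟨h5, h6, h7⟩ := hX₀ X hX
  set I := {v : PL S | X < (qq v.1 : ℝ) ∧ (qq v.1 : ℝ) ≤ (1 + η) * X ∧ True} with hI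
  have hfin := IS_finite (fun _ : PL S => True) X η
  have hlX := Real.log_pos h6
  have h1X : X < (1 + η) * X := by nlinarith
  have hlX' : 0 < Real.log ((1 + η) * X) := Real.log_pos (by linarith)
  -- the difference
  have h8 : Pool.Agent.T2H30.SU3.thK K ⌊(1 + η) * X⌋₊ - Pool.Agent.T2H30.SU3.thK K ⌊X⌋₊ =
      ∑ v ∈ (prLE K ⌊(1 + η) * X⌋₊) \ (prLE K ⌊X⌋₊), Real.log (nm v) := by
    have hsub : prLE K ⌊X⌋₊ ⊆ prLE K ⌊(1 + η) * X⌋₊ := by
      intro v hv
      rw [mem_prLE] at hv ⊢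
      exact hv.trans (Nat.floor_mono h1X.le)
    unfold Pool.Agent.T2H30.SU3.thK
    rw [← Finset.sum_sdiff hsub, add_sub_cancel_right]
  have h9 : ∑ v ∈ (prLE K ⌊(1 + η) * X⌋₊) \ (prLE K ⌊X⌋₊), Real.log (nm v) ≤
      (I.ncard : ℝ) * Real.log ((1 + η) * X) := by
    have h10 : (prLE K ⌊(1 + η) * X⌋₊) \ (prLE K ⌊X⌋₊) ⊆ hfin.toFinset.image fun v => v.1 := by
      intro v hv
      rw [Finset.mem_sdiff, mem_prLE, mem_prLE] at hv
      have h11 : X < (nm v : ℝ) := by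
        by_contra h
        exact hv.2 ((Nat.le_floor_iff (by linarith)).2 (not_lt.1 h))
      have h12 : (nm v : ℝ) ≤ (1 + η) * X := (Nat.le_floor_iff (by linarith)).1 hv.1
      have h13 : v ∉ S := fun h => by
        have := hB v h
        linarith
      rw [Finset.mem_image]
      exact ⟨⟨v, h13⟩, hfin.mem_toFinset.2 ⟨h11, h12, trivial⟩, rfl⟩
    calc _ ≤ ∑ v ∈ (prLE K ⌊(1 + η) * X⌋₊) \ (prLE K ⌊X⌋₊), Real.log ((1 + η) * X) := by
          refine Finset.sum_le_sum fun v hv => ?_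
          rw [Finset.mem_sdiff, mem_prLE] at hv
          have h12 : (nm v : ℝ) ≤ (1 + η) * X := (Nat.le_floor_iff (by linarith)).1 hv.1
          exact Real.log_le_log (by
            have := Pool.Agent.H921R2.TatePole.two_le_nm v
            exact_mod_cast (by omega : 0 < nm v)) h12
      _ = (((prLE K ⌊(1 + η) * X⌋₊) \ (prLE K ⌊X⌋₊)).card : ℝ) * Real.log ((1 + η) * X) := by
          rw [Finset.sum_const, nsmul_eq_mul]
      _ ≤ _ := by
          refine mul_le_mul_of_nonneg_right ?_ hlX'.le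
          rw [Set.ncard_eq_toFinset_card _ hfin]
          exact_mod_cast (Finset.card_le_card h10).trans Finset.card_image_le
  rw [h8] at h5
  have hX0 : 0 < X := by linarith
  have h10 : (∑ v ∈ (prLE K ⌊(1 + η) * X⌋₊) \ (prLE K ⌊X⌋₊), Real.log (nm v)) / X *
      (Real.log X / Real.log ((1 + η) * X)) ≤ (I.ncard : ℝ) * Real.log X / X := by
    have e : (I.ncard : ℝ) * Real.log X / X = ((I.ncard : ℝ) * Real.log ((1 + η) * X)) / X *
      (Real.log X / Real.log ((1 + η) * X)) := by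
      have hne := hlX'.ne'
      generalize Real.log ((1 + η) * X) = l at hne ⊢
      field_simp
    rw [e]
    exact mul_le_mul_of_nonneg_right (div_le_div_of_nonneg_right h9 hX0.le) (div_pos hlX hlX').le
  have h11 := h5.le.trans h10
  rw [le_div_iff₀ hX0, ← div_le_iff₀ hlX] at h11
  refine le_trans (le_of_eq ?_) h11
  ring

theorem lower_of_upper {P : PL S → Prop} {δ : ℝ} (h : UpperDensityLE P δ) : LowerDensityGE (fun v => ¬ P v) (1 - δ) := by
  classical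
  intro η hη ε hε
  obtain ⟨X₁, h1⟩ := h η hη (ε / 2) (by linarith)
  obtain ⟨X₂, h2⟩ := total (S := S) η hη (ε / 2) (by linarith)
  refine ⟨max X₁ X₂, fun X hX => ?_⟩
  have h3 := h1 X ((le_max_left _ _).trans hX)
  have h4 := h2 X ((le_max_right _ _).trans hX)
  have h5 : {v : PL S | X < (qq v.1 : ℝ) ∧ (qq v.1 : ℝ) ≤ (1 + η) * X ∧ True} =
      {v : PL S | X < (qq v.1 : ℝ) ∧ (qq v.1 : ℝ) ≤ (1 + η) * X ∧ P v} ∪
      {v : PL S | X < (qq v.1 : ℝ) ∧ (qq v.1 : ℝ) ≤ (1 + η) * X ∧ ¬ P v} := by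
    ext v
    simp only [Set.mem_ofPred_eq, Set.mem_union, and_true]
    tauto
  rw [h5] at h4
  have h6 : (({v : PL S | X < (qq v.1 : ℝ) ∧ (qq v.1 : ℝ) ≤ (1 + η) * X ∧ P v} ∪
      {v : PL S | X < (qq v.1 : ℝ) ∧ (qq v.1 : ℝ) ≤ (1 + η) * X ∧ ¬ P v}).ncard : ℝ) ≤
      ({v : PL S | X < (qq v.1 : ℝ) ∧ (qq v.1 : ℝ) ≤ (1 + η) * X ∧ P v}.ncard : ℝ) +
      ({v : PL S | X < (qq v.1 : ℝ) ∧ (qq v.1 : ℝ) ≤ (1 + η) * X ∧ ¬ P v}.ncard : ℝ) := by
    exact_mod_cast Set.ncard_union_le _ _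
  have h7 : (1 - δ - ε) * (η * X / Real.log X) =
    (1 - ε / 2) * (η * X / Real.log X) - (δ + ε / 2) * (η * X / Real.log X) := by ring
  rw [h7]
  linarith

theorem LowerDensityGE.mono {P Q : PL S → Prop} {δ : ℝ} (h : LowerDensityGE P δ) (hPQ : ∀ v, P v → Q v) :
    LowerDensityGE Q δ := by
  intro η hη ε hε
  obtain ⟨X₀, h1⟩ := h η hη ε hε
  refine ⟨X₀, fun X hX => (h1 X hX).trans ?_⟩
  have h2 : {v : PL S | X < (qq v.1 : ℝ) ∧ (qq v.1 : ℝ) ≤ (1 + η) * X ∧ P v} ⊆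
      {v : PL S | X < (qq v.1 : ℝ) ∧ (qq v.1 : ℝ) ≤ (1 + η) * X ∧ Q v} := fun v hv => ⟨hv.1, hv.2.1, hPQ v hv.2.2⟩
  exact_mod_cast Set.ncard_le_ncard h2 (IS_finite Q X η)

theorem UpperDensityLE.mono {P Q : PL S → Prop} {δ : ℝ} (h : UpperDensityLE P δ) (hPQ : ∀ v, Q v → P v) :
    UpperDensityLE Q δ := by
  intro η hη ε hε
  obtain ⟨X₀, h1⟩ := h η hη ε hε
  refine ⟨X₀, fun X hX => le_trans ?_ (h1 X hX)⟩
  have h2 : {v : PL S | X < (qq v.1 : ℝ) ∧ (qq v.1 : ℝ) ≤ (1 + η) * X ∧ Q v} ⊆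
      {v : PL S | X < (qq v.1 : ℝ) ∧ (qq v.1 : ℝ) ≤ (1 + η) * X ∧ P v} := fun v hv => ⟨hv.1, hv.2.1, hPQ v hv.2.2⟩
  exact_mod_cast Set.ncard_le_ncard h2 (IS_finite P X η)

end

end Pool.Agent.T2H30.DN
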