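import Mathlib
import Pool.Agent.T2H30.DN.Psi

/-! The partial zeta function. -/

set_option autoImplicit false

open Complex MeasureTheory Set Filter Topology NumberField IsDedekindDomain
open Pool.Agent.TH861.GL3
open Pool.Agent.W189.TP (DS DS_diff norm_term summ_cplx summ_mono)
open Pool.Agent.H921R2.TatePole (nm)
open H332.PIT (prLE mem_prLE LamK)

namespace Pool.Agent.T2H30.DN

variable {K : Type*} [Field K] [NumberField K]

theorem fN_one (n : ℕ) : fN (S := (∅ : Finset (HeightOneSpectrum (𝓞 K)))) (fun _ => 1) n = LamK K n := by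
  classical
  rcases Nat.eq_zero_or_pos n with hn | hn
  · subst hn
    rw [fN_zero]
    unfold LamK
    simp
  unfold fN
  have e0 : ∀ x : PL (∅ : Finset (HeightOneSpectrum (𝓞 K))) × ℕ, x.1.1 ∈ (Set.univ : Set (HeightOneSpectrum (𝓞 K))) :=
    fun x => Set.mem_univ _
  rw [tsum_subtype (Nx ⁻¹' {n}) fun x : PL (∅ : Finset (HeightOneSpectrum (𝓞 K))) × ℕ => (1 : ℝ) * lq x]
  set i : HeightOneSpectrum (𝓞 K) × ℕ → PL (∅ : Finset (HeightOneSpectrum (𝓞 K))) × ℕ :=
    fun y => (⟨y.1, Finset.notMem_empty _⟩, y.2) with hi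
  have hinj : Function.Injective i := by
    intro y z h
    rw [hi] at h
    simp only [Prod.mk.injEq, Subtype.mk.injEq] at h
    exact Prod.ext h.1 h.2
  have hsup : ∀ x, x ∉ (prLE K n ×ˢ Finset.range n).image i →
      (Nx ⁻¹' {n}).indicator (fun x : PL (∅ : Finset (HeightOneSpectrum (𝓞 K))) × ℕ => (1 : ℝ) * lq x) x = 0 := by
    intro x hx
    rw [Set.indicator_of_notMem]
    intro h
    apply hx
    have h1 : qq x.1.1 ^ (x.2 + 1) = n := h
    have h2 := H332.PIT.nm_le_of_pow (v := x.1.1) (k := x.2 + 1) (n := n) (by omega) h1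
    rw [Finset.mem_image]
    refine ⟨(x.1.1, x.2), ?_, rfl⟩
    rw [Finset.mem_product, mem_prLE, Finset.mem_range]
    exact ⟨h2.1, by omega⟩
  rw [tsum_eq_sum fun x hx => hsup x hx, Finset.sum_image fun y _ z _ h => hinj h, Finset.sum_product]
  unfold LamK
  refine Finset.sum_congr rfl fun v _ => ?_
  have e1 : Finset.Icc 1 n = (Finset.range n).image fun k => k + 1 := by
    ext k
    simp only [Finset.mem_Icc, Finset.mem_image, Finset.mem_range]
    constructor
    · intro h
      exact ⟨k - 1, by omega, by omega⟩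
    · rintro ⟨j, hj, rfl⟩
      omega
  rw [e1, Finset.sum_image fun a _ b _ h => by simpa using h]
  refine Finset.sum_congr rfl fun k _ => ?_
  rw [Set.indicator_apply]
  have e2 : (i (v, k) ∈ (Nx ⁻¹' {n} : Set (PL (∅ : Finset (HeightOneSpectrum (𝓞 K))) × ℕ))) ↔ nm v ^ (k + 1) = n :=
    Iff.rfl
  simp only [e2, one_mul]
  rfl

theorem sum_lq {S : Finset (HeightOneSpectrum (𝓞 K))} {σ : ℝ} (hσ : 1 < σ) :
    Summable fun x : PL S × ℕ => |(1 : ℝ) * lq x| * Real.exp (-(σ * LL x)) := by
  have h2 := (summable_pp (S := S) (fun _ => 1) (fun _ => zero_le_one) (by linarith : (0 : ℝ) < (1 + σ) / 2)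
    ((summable_qq (σ := (1 + σ) / 2) (by linarith)).congr fun p => (one_mul _).symm)).mul_left (1 / ((σ - 1) / 2))
  refine Summable.of_nonneg_of_le (fun x => by positivity) (fun x => ?_) h2
  have h3 := mul_exp_le (x := LL x) (δ := (σ - 1) / 2) (by linarith)
  have h4 : Real.exp (-(σ * LL x)) = Real.exp (-((σ - 1) / 2 * LL x)) * Real.exp (-((1 + σ) / 2 * LL x)) := by
    rw [← Real.exp_add]
    congr 1
    ring
  rw [one_mul, abs_of_pos (lq_pos x), h4, one_mul, ← mul_assoc]
  refine mul_le_mul_of_nonneg_right ?_ (Real.exp_pos _).le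
  exact (mul_le_mul_of_nonneg_right (lq_le x) (Real.exp_pos _).le).trans h3

/-- the local factor -/
noncomputable def hv (s : ℂ) (v : HeightOneSpectrum (𝓞 K)) : ℂ :=
  (Real.log (qq v : ℝ) : ℂ) * (Complex.exp (-(s * Real.log (qq v : ℝ))) * (1 - Complex.exp (-(s * Real.log (qq v : ℝ))))⁻¹)

theorem norm_exp_lt {s : ℂ} (hs : 0 < s.re) (v : HeightOneSpectrum (𝓞 K)) :
    ‖Complex.exp (-(s * Real.log (qq v : ℝ)))‖ < 1 := by
  rw [Complex.norm_exp, Real.exp_lt_one_iff]
  have h1 := Real.log_pos (one_lt_qq v)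
  simp only [Complex.neg_re, Complex.mul_re, Complex.ofReal_re, Complex.ofReal_im, mul_zero, sub_zero]
  nlinarith

theorem DS_hv {S : Finset (HeightOneSpectrum (𝓞 K))} {s : ℂ} (hs : 1 < s.re) :
    Summable (fun v : PL S => hv s v.1) ∧
    DS (fun x : PL S × ℕ => (1 : ℝ) * lq x) LL s = ∑' v : PL S, hv s v.1 := by
  have h1 := summ_cplx (d := fun x : PL S × ℕ => (1 : ℝ) * lq x) LL_nonneg (σ := (1 + s.re) / 2) (s := s) (by linarith)
    (sum_lq (by linarith))
  have h2 : ∀ v : PL S, ∑' k : ℕ, (((1 : ℝ) * lq (v, k) : ℝ) : ℂ) * Complex.exp (-(s * LL (v, k))) = hv s v.1 := by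
    intro v
    have h3 : ∀ k : ℕ, (((1 : ℝ) * lq (v, k) : ℝ) : ℂ) * Complex.exp (-(s * LL (v, k))) =
        ((Real.log (qq v.1 : ℝ) : ℂ) * Complex.exp (-(s * Real.log (qq v.1 : ℝ)))) *
          Complex.exp (-(s * Real.log (qq v.1 : ℝ))) ^ k := by
      intro k
      rw [mul_assoc, ← pow_succ', ← Complex.exp_nat_mul]
      unfold lq LL
      push_cast
      congr 1
      · ring
      · congr 1
        ring
    simp_rw [h3]
    rw [tsum_mul_left, tsum_geometric_of_norm_lt_one (norm_exp_lt (by linarith) v.1)]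
    unfold hv
    ring
  have h3 := h1.prod
  simp_rw [h2] at h3
  refine ⟨h3, ?_⟩
  unfold DS
  rw [h1.tsum_prod]
  simp_rw [h2]

theorem cont_one (hK : H332.PIT.Cont K) (S : Finset (HeightOneSpectrum (𝓞 K))) :
    Cont (fun _ : PL S × ℕ => (1 : ℝ)) 1 := by
  classical
  refine ⟨fun σ hσ => sum_lq hσ, ?_⟩
  set f : ℂ → ℂ := fun s => H332.PIT.LL K s - 1 / (s - 1) with hf
  have hF0 : ContinuousOn (extendFrom {s : ℂ | 1 < s.re} f) {s : ℂ | 1 ≤ s.re} := by
    refine continuousOn_extendFrom ?_ fun s hs => H332.PIT.boundary hK hs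
    intro s hs
    rw [Metric.mem_closure_iff]
    intro ε hε
    refine ⟨s + ((ε / 2 : ℝ) : ℂ), ?_, ?_⟩
    · have : (1 : ℝ) ≤ s.re := hs
      simp only [Set.mem_ofPred_eq, Complex.add_re, Complex.ofReal_re]
      linarith
    · rw [dist_eq_norm, sub_add_cancel_left, norm_neg, Complex.norm_real, Real.norm_eq_abs,
        abs_of_pos (by linarith)]
      linarith
  have hF1 : ∀ s : ℂ, 1 < s.re → extendFrom {s : ℂ | 1 < s.re} f s = f s := by
    intro s hs
    have h1 : ContinuousOn f {s : ℂ | 1 < s.re} := by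
      intro z hz
      have hz1 : z - 1 ≠ 0 := by
        intro h0
        have := congrArg Complex.re h0
        have hz' : 1 < z.re := hz
        simp at this
        linarith
      have h2 : ContinuousAt f z := by
        refine ContinuousAt.sub (H332.PIT.LL_analyticAt hz).continuousAt ?_
        exact continuousAt_const.div (continuousAt_id.sub continuousAt_const) hz1
      exact h2.continuousWithinAt
    exact extendFrom_eq (subset_closure hs) (h1 s hs)
  refine ⟨fun s => extendFrom {s : ℂ | 1 < s.re} f s - ∑ v ∈ S, hv s v, ?_, ?_⟩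
  · refine hF0.sub (continuousOn_finset_sum _ fun v _ => ?_)
    intro s hs
    have hs' : (1 : ℝ) ≤ s.re := hs
    have h1 : 1 - Complex.exp (-(s * Real.log (qq v : ℝ))) ≠ 0 := by
      intro h0
      have h2 := norm_exp_lt (s := s) (by linarith) v
      rw [← sub_eq_zero.1 h0, norm_one] at h2
      exact lt_irrefl _ h2
    have h2 : ContinuousAt (fun s : ℂ => Complex.exp (-(s * Real.log (qq v : ℝ)))) s := by fun_prop
    have h3 : ContinuousAt (fun s : ℂ => hv s v) s := by
      unfold hv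
      exact continuousAt_const.mul (h2.mul ((continuousAt_const.sub h2).inv₀ h1))
    exact h3.continuousWithinAt
  · intro s hs
    simp only
    rw [hF1 s hs, hf]
    simp only
    have h1 := (DS_hv (S := S) hs).2
    have h2 := DS_hv (S := (∅ : Finset (HeightOneSpectrum (𝓞 K)))) hs
    -- the sum over all places
    have h3 : H332.PIT.LL K s = ∑' v : PL (∅ : Finset (HeightOneSpectrum (𝓞 K))), hv s v.1 := by
      rw [← h2.2, ← (fN_hasSum (c := fun _ => 1) (fun σ hσ => sum_lq hσ) hs).tsum_eq]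
      have h4 : (fun n => ((fN (S := (∅ : Finset (HeightOneSpectrum (𝓞 K)))) (fun _ => 1) n : ℝ) : ℂ)) =
          fun n => ((LamK K n : ℝ) : ℂ) := by
        ext n
        rw [fN_one]
      rw [h4]
      rfl
    set e : HeightOneSpectrum (𝓞 K) ≃ PL (∅ : Finset (HeightOneSpectrum (𝓞 K))) :=
      (Equiv.subtypeUnivEquiv fun v => Finset.notMem_empty v).symm with he
    have h5 : Summable fun v : HeightOneSpectrum (𝓞 K) => hv s v := e.summable_iff.2 h2.1
    have h6 : ∑' v : PL (∅ : Finset (HeightOneSpectrum (𝓞 K))), hv s v.1 = ∑' v, hv s v :=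
      (e.tsum_eq fun v : PL (∅ : Finset (HeightOneSpectrum (𝓞 K))) => hv s v.1).symm
    have h7 := h5.sum_add_tsum_subtype_compl S
    rw [h3, h6, ← h7, h1]
    push_cast
    ring

end Pool.Agent.T2H30.DN
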