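import Mathlib
import Pool.Agent.T2H30.DN.Dens
import Pool.Agent.T2H30.DN.Local

/-! Densities for `GL_4`. -/

set_option autoImplicit false

open Set Filter Topology NumberField IsDedekindDomain
open Pool.Agent.TH861.GL3

namespace Pool.Agent.T2H30.DN

variable {K : Type} [Field K] [NumberField K] {S : Finset (HeightOneSpectrum (𝓞 K))}

theorem EulerProduct.tendsto {c : PL S × ℕ → ℝ} {m : ℕ} (h : EulerProduct c m) (hc : ∀ x, 0 ≤ c x) :
    Tendsto (fun X => psi c X / X) atTop (𝓝 (m : ℝ)) := h.cont.tendsto hc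

variable {α : PL S → Fin 4 → ℂ} {m : ℕ}

theorem gl4_tail (h : CuspidalGL4 α m) {R : ℝ} (hR : 1 < R) :
    UpperDensityLE (fun v => ∃ i, R ≤ ‖α v i‖) (((R + R⁻¹ + √m) / (R ^ 2 + (R ^ 2)⁻¹)) ^ 2) := by
  have hm : (1 : ℝ) ≤ m := by exact_mod_cast h.one_le
  have hR0 : 0 < R := by linarith
  set x : ℝ := R + R⁻¹ with hx
  have hx0 : 2 ≤ x := two_le_add_inv hR0
  set r : ℝ := √m with hr
  have hr0 : 0 < r := Real.sqrt_pos.2 (by linarith)
  have hr2 : r ^ 2 = m := Real.sq_sqrt (by linarith)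
  set l : ℝ := x * r with hl
  have hl0 : 0 < l := by positivity
  set c : PL S × ℕ → ℝ := fun y => l * ‖∑ i, α y.1 i ^ (y.2 + 1)‖ ^ 2 +
    ‖∑ i, ∑ j with i < j, (α y.1 i * α y.1 j) ^ (y.2 + 1)‖ ^ 2 with hc
  have h1 : Tendsto (fun X => psi c X / X) atTop (𝓝 (l * 1 + m)) := by
    have h2 := ((h.standard.cont.smul l).add h.exterior.cont).tendsto (fun y => by positivity)
    simpa using h2
  set κ : ℝ := l * (x ^ 2 - 2) ^ 2 / (x ^ 2 + l) with hκ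
  have hκ0 : 0 < κ := by
    have : 0 < x ^ 2 - 2 := by nlinarith
    positivity
  have h2 := upper_of_tendsto (P := fun v => ∃ i, R ≤ ‖α v i‖) (fun y => by positivity) h1 hκ0 (fun v hv => by
    obtain ⟨i, hi⟩ := hv
    have h3 := quad_low (h.unitary v) hR hl0 hi
    rw [hc]
    simpa using h3)
  have h3 : (l * 1 + m) / κ = ((R + R⁻¹ + √m) / (R ^ 2 + (R ^ 2)⁻¹)) ^ 2 := by
    have e1 : R ^ 2 + (R ^ 2)⁻¹ = x ^ 2 - 2 := by
      rw [hx]
      field_simp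
      ring
    rw [e1, ← hx, ← hr, hκ, hl, ← hr2]
    have e2 : x ^ 2 - 2 ≠ 0 := by nlinarith
    have e3 : x ≠ 0 := by linarith
    field_simp
  rw [h3] at h2
  exact h2

theorem gl4_second (h : CuspidalGL4 α m) {R : ℝ} (hR : 1 ≤ R) :
    UpperDensityLE (fun v => ∀ i, ‖α v i‖ ≠ 1 ∧ (R ≤ ‖α v i‖ ∨ ‖α v i‖ ≤ R⁻¹)) ((m : ℝ) / (R ^ 2 + (R ^ 2)⁻¹) ^ 2) := by
  have hR0 : 0 < R := by linarith
  refine upper_of_tendsto (c := fun y => ‖∑ i, ∑ j with i < j, (α y.1 i * α y.1 j) ^ (y.2 + 1)‖ ^ 2)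
    (fun y => by positivity) (h.exterior.tendsto fun y => by positivity) (by positivity) fun v hv => ?_
  have := no_unimodular (h.unitary v) hR hv
  simpa using this

theorem gl4_bounded (h : CuspidalGL4 α m) {R : ℝ} (hR : 1 < R) :
    LowerDensityGE (fun v => ∀ i, ‖α v i‖ < R) (1 - ((R + R⁻¹ + √m) / (R ^ 2 + (R ^ 2)⁻¹)) ^ 2) := by
  refine (lower_of_upper (gl4_tail h hR)).mono fun v hv i => ?_
  by_contra h1
  exact hv ⟨i, not_lt.1 h1⟩

theorem gl4_half (h : CuspidalGL4 α m) :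
    LowerDensityGE (fun v => ∃ i j, i ≠ j ∧ ‖α v i‖ = 1 ∧ ‖α v j‖ = 1) (1 - (m : ℝ) / 4) := by
  have h1 := lower_of_upper (gl4_second h le_rfl)
  have e1 : (1 : ℝ) - (m : ℝ) / (1 ^ 2 + (1 ^ 2)⁻¹) ^ 2 = 1 - (m : ℝ) / 4 := by norm_num
  rw [e1] at h1
  refine h1.mono fun v hv => two_unimodular (h.unitary v) fun h2 => hv fun i => ⟨h2 i, ?_⟩
  rw [inv_one]
  exact le_total _ _

end Pool.Agent.T2H30.DN
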